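import Pool.Agent.Helper774.KSing.Main

/-!
Toric Fano varieties in the sense of `SData`: the polytope is bounded, and K-semistability forces its
barycentre to be the origin.
-/

open scoped ENNReal

noncomputable section

namespace Pool.Agent.R891.TG

open Pool.Agent.Helper774.KSing
open Pool.Agent.Helper774.KStab (TorusField IntVal)
open Pool.Agent.Helper774.KStab (finrank_le_card finrank_span_image lattice_count layer_cake)
open MeasureTheory

variable {n : ℕ} {K : Type} [Field K] [Algebra ℂ K]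

/-- pairing of a real point with the rays -/
theorem sum_w (D : SData n) (σ τ : D.ι) (j : Fin n) :
    ∑ i, ((D.w σ i : ℤ) : ℝ) * ((D.R τ i j : ℤ) : ℝ) = ((Matrix.vecMul (D.w σ) (D.R τ) j : ℤ) : ℝ) := by
  simp only [Matrix.vecMul, dotProduct]
  push_cast
  rfl

/-- Every real vector lies in some cone of the fan. -/
theorem exists_cone (D : SData n) (x : Fin n → ℝ) :
    ∃ σ : D.ι, ∃ a : Fin n → ℝ, (∀ j, 0 ≤ a j) ∧
      ∀ i, x i = ∑ j, ((D.R σ i j : ℤ) : ℝ) * a j := by
  have := D.ne
  obtain ⟨σ, hσ⟩ := Finite.exists_min (fun σ : D.ι => ∑ i, ((D.w σ i : ℤ) : ℝ) * x i)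
  set M : Matrix (Fin n) (Fin n) ℝ := (D.R σ).map (fun z : ℤ => (z : ℝ)) with hM
  have hdet : M.det ≠ 0 := by
    have h1 : M.det = ((D.R σ).det : ℝ) := by
      rw [hM]
      exact (Int.cast_det (R := ℝ) (D.R σ)).symm
    rw [h1]
    exact_mod_cast D.det_ne σ
  have hunit : IsUnit M.det := isUnit_iff_ne_zero.2 hdet
  set a : Fin n → ℝ := M⁻¹.mulVec x with ha
  have hx : ∀ i, x i = ∑ j, ((D.R σ i j : ℤ) : ℝ) * a j := by
    intro i
    have h1 : M.mulVec a = x := by
      rw [ha, Matrix.mulVec_mulVec, Matrix.mul_nonsing_inv _ hunit, Matrix.one_mulVec]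
    have h2 := congrFun h1 i
    rw [← h2]
    rfl
  refine ⟨σ, a, fun k => ?_, hx⟩
  obtain ⟨τ, h1, h2⟩ := D.nbr σ k
  have h3 := hσ τ
  have h4 : ∀ ρ : D.ι, ∑ i, ((D.w ρ i : ℤ) : ℝ) * x i =
      ∑ j, ((Matrix.vecMul (D.w ρ) (D.R σ) j : ℤ) : ℝ) * a j := by
    intro ρ
    simp_rw [hx, ← sum_w, Finset.mul_sum, Finset.sum_mul]
    rw [Finset.sum_comm]
    refine Finset.sum_congr rfl fun j _ => Finset.sum_congr rfl fun i _ => ?_
    ring
  rw [h4, h4] at h3
  have h5 : ∑ j, ((Matrix.vecMul (D.w τ) (D.R σ) j : ℤ) : ℝ) * a j -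
      ∑ j, ((Matrix.vecMul (D.w σ) (D.R σ) j : ℤ) : ℝ) * a j =
      (((Matrix.vecMul (D.w τ) (D.R σ) k : ℤ) : ℝ) + D.r) * a k := by
    rw [← Finset.sum_sub_distrib, Finset.sum_eq_single k]
    · rw [D.w_self σ k]
      push_cast
      ring
    · intro j _ hj
      rw [h1 j hj, D.w_self σ j]
      ring
    · intro h
      exact absurd (Finset.mem_univ k) h
  have h6 : (0 : ℝ) < ((Matrix.vecMul (D.w τ) (D.R σ) k : ℤ) : ℝ) + D.r := by
    have h7 : -(D.r : ℤ) < Matrix.vecMul (D.w τ) (D.R σ) k :=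
      lt_of_le_of_ne (D.vert τ σ k) (Ne.symm h2)
    have h8 : (-(D.r : ℤ) : ℝ) < ((Matrix.vecMul (D.w τ) (D.R σ) k : ℤ) : ℝ) := by exact_mod_cast h7
    push_cast at h8
    linarith
  have h9 : 0 ≤ (((Matrix.vecMul (D.w τ) (D.R σ) k : ℤ) : ℝ) + D.r) * a k := by
    rw [← h5]; linarith
  exact nonneg_of_mul_nonneg_right h9 h6

theorem P_bounded (D : SData n) : Bornology.IsBounded D.P := by
  have key : ∀ x : Fin n → ℝ, ∃ C : ℝ, 0 ≤ C ∧ ∀ p ∈ D.P, -C ≤ ∑ i, p i * x i := by
    intro x
    obtain ⟨σ, a, ha, hx⟩ := exists_cone D x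
    refine ⟨∑ j, a j, Finset.sum_nonneg fun j _ => ha j, fun p hp => ?_⟩
    have h1 : ∑ i, p i * x i = ∑ j, a j * ∑ i, p i * ((D.R σ i j : ℤ) : ℝ) := by
      simp_rw [hx, Finset.mul_sum]
      rw [Finset.sum_comm]
      refine Finset.sum_congr rfl fun j _ => Finset.sum_congr rfl fun i _ => ?_
      ring
    rw [h1, ← Finset.sum_neg_distrib]
    refine Finset.sum_le_sum fun j _ => ?_
    have := mul_le_mul_of_nonneg_left (hp σ j) (ha j)
    linarith
  choose C hC0 hC using key
  rw [isBounded_iff_forall_norm_le]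
  refine ⟨∑ i, (C (Pi.single i 1) + C (Pi.single i (-1))), fun p hp => ?_⟩
  have hnn : ∀ i : Fin n, 0 ≤ C (Pi.single i 1) + C (Pi.single i (-1)) := fun i =>
    add_nonneg (hC0 _) (hC0 _)
  rw [pi_norm_le_iff_of_nonneg (Finset.sum_nonneg fun i _ => hnn i)]
  intro i
  have h1 := hC (Pi.single i 1) p hp
  have h2 := hC (Pi.single i (-1)) p hp
  have e : ∀ c : ℝ, ∑ k, p k * (Pi.single i c : Fin n → ℝ) k = p i * c := by
    intro c
    rw [Finset.sum_eq_single i]
    · rw [Pi.single_eq_same]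
    · intro k _ hk
      rw [Pi.single_eq_of_ne hk, mul_zero]
    · intro h
      exact absurd (Finset.mem_univ i) h
  rw [e] at h1 h2
  have h3 : C (Pi.single i 1) + C (Pi.single i (-1)) ≤
      ∑ i, (C (Pi.single i 1) + C (Pi.single i (-1))) :=
    Finset.single_le_sum (fun i _ => hnn i) (Finset.mem_univ i)
  rw [Real.norm_eq_abs, abs_le]
  have h4 := hC0 (Pi.single i 1)
  have h5 := hC0 (Pi.single i (-1))
  constructor <;> linarith

/-- Transfer from counts of lattice points to `S`, lower bound. -/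
theorem toric_le_S (T : TorusField n K) (D : SData n) (hb : Bornology.IsBounded D.P)
    (E : (toricVar T D).DivVal) (b : Fin n → ℝ) (A : ℝ)
    (hpos : ∀ p ∈ D.P, 0 ≤ ∑ i, b i * p i + A)
    (hf : ∀ (m : ℕ) (t : ℝ), 1 ≤ m → 0 < t →
      {u ∈ D.pts m | (m : ℝ) * t ≤ ∑ i, b i * (u i : ℝ) + A * m}.ncard ≤
        Module.finrank ℂ (E.filt m t)) :
    ENNReal.ofReal (∑ i, b i * (∫ p in D.P, p i) + A * volume.real D.P) / volume D.P ≤ E.S := by
  have hN0 : (Nat.factorial n : ℝ≥0∞) ≠ 0 := by
    exact_mod_cast Nat.factorial_ne_zero n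
  have hNt : (Nat.factorial n : ℝ≥0∞) ≠ ⊤ := ENNReal.natCast_ne_top _
  have h1 : ∀ t : ℝ, 0 < t →
      (Nat.factorial n : ℝ≥0∞) * volume (D.P ∩ {p | t ≤ ∑ i, b i * p i + A}) ≤ E.vol t := by
    intro t ht
    rw [← (cut_lim D hb b A t).limsup_eq]
    refine Filter.limsup_le_limsup ?_
    filter_upwards [Filter.eventually_ge_atTop 1] with m hm
    refine ENNReal.div_le_div_right ?_ _
    exact_mod_cast Nat.mul_le_mul_left _ (hf m t hm ht)
  have h2 : (Nat.factorial n : ℝ≥0∞) *
      ENNReal.ofReal (∑ i, b i * (∫ p in D.P, p i) + A * volume.real D.P) ≤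
      ∫⁻ t in Set.Ioi (0 : ℝ), E.vol t := by
    rw [← layer_cake D.P hb D.P_closed b A hpos, ← lintegral_const_mul' _ _ hNt]
    exact setLIntegral_mono' measurableSet_Ioi fun t ht => h1 t ht
  unfold Variety.DivVal.S
  rw [toric_vol T D hb, ← ENNReal.mul_div_mul_left
    (ENNReal.ofReal (∑ i, b i * (∫ p in D.P, p i) + A * volume.real D.P)) (volume D.P) hN0 hNt]
  exact ENNReal.div_le_div_right h2 _

/-- One direction of the barycentre: the valuation of the cocharacter `ε e_i`. -/
theorem bary_le (T : TorusField (n + 1) K) (D : SData (n + 1))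
    (hK : (toricVar T D).KSemistable) (i : Fin (n + 1)) (ε : ℤ) (hε : ε * ε = 1) :
    (ε : ℝ) * ∫ p in D.P, p i ≤ 0 := by
  have hb := P_bounded D
  have hEm : (ε • (1 : Matrix (Fin (n + 1)) (Fin (n + 1)) ℤ)) * (ε • 1) = 1 := by
    rw [Matrix.smul_mul, Matrix.mul_smul, mul_one, smul_smul, hε, one_smul]
  obtain ⟨v, hv, hnorm, htriv, hres, hform⟩ := exists_rayVal T _ _ hEm i
  let E : (toricVar T D).DivVal := ⟨v, htriv, hnorm, hres⟩
  have hvm : ∀ u' : Fin (n + 1) → ℤ,
      Matrix.vecMul u' (ε • (1 : Matrix (Fin (n + 1)) (Fin (n + 1)) ℤ)) i = ε * u' i := by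
    intro u'
    rw [Matrix.vecMul_smul, Matrix.vecMul_one, Pi.smul_apply, smul_eq_mul]
  have hχ : ∀ u' : Fin (n + 1) → ℤ, v (T.χ u') = ((ε * u' i : ℤ) : WithTop ℤ) := by
    intro u'
    obtain ⟨u1, hu1, h1, -⟩ := hv (Finsupp.single u' 1) (by simp)
    rw [Finsupp.linearCombination_single, one_smul] at h1
    have hu2 : u1 = u' := by
      have := Finsupp.support_single_subset hu1
      simpa using this
    rw [h1, hu2, hvm]
  -- the centre
  let V : ValuationSubring K :=
    { carrier := {f | 0 ≤ v f}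
      mul_mem' := by
        intro a b ha hb
        simp only [Set.mem_ofPred_eq] at ha hb ⊢
        rw [v.map_mul]
        exact add_nonneg ha hb
      one_mem' := by
        simp only [Set.mem_ofPred_eq]
        rw [v.map_one]
      add_mem' := by
        intro a b ha hb
        simp only [Set.mem_ofPred_eq] at ha hb ⊢
        exact (le_min ha hb).trans (v.map_add a b)
      zero_mem' := by
        simp only [Set.mem_ofPred_eq]
        rw [v.map_zero]
        exact le_top
      neg_mem' := by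
        intro a ha
        simp only [Set.mem_ofPred_eq] at ha ⊢
        rw [v.map_neg]
        exact ha
      mem_or_inv_mem' := by
        intro a
        by_cases ha0 : a = 0
        · left
          simp only [ha0, Set.mem_ofPred_eq]
          rw [v.map_zero]
          exact le_top
        · have h1 : v a ≠ ⊤ := fun h => ha0 ((AddValuation.top_iff v).1 h)
          obtain ⟨k, hk⟩ := WithTop.ne_top_iff_exists.1 h1
          have h2 : v a + v a⁻¹ = 0 := by
            rw [← v.map_mul, mul_inv_cancel₀ ha0, v.map_one]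
          have h3 : v a⁻¹ ≠ ⊤ := fun h => inv_ne_zero ha0 ((AddValuation.top_iff v).1 h)
          obtain ⟨l, hl⟩ := WithTop.ne_top_iff_exists.1 h3
          rw [← hk, ← hl] at h2
          have h4 : k + l = 0 := by exact_mod_cast h2
          rcases le_total 0 k with h | h
          · left
            show 0 ≤ v a
            rw [← hk]
            exact_mod_cast h
          · right
            show 0 ≤ v a⁻¹
            rw [← hl]
            have : 0 ≤ l := by omega
            exact_mod_cast this }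
  have hVmem : ∀ f, f ∈ V ↔ 0 ≤ v f := fun f => Iff.rfl
  obtain ⟨σ, hσ⟩ := (toricVar T D).complete V (by
    intro c
    show 0 ≤ v (algebraMap ℂ K c)
    by_cases hc : c = 0
    · rw [hc, map_zero, v.map_zero]
      exact le_top
    · rw [htriv c hc])
  have hring : ∀ f ∈ cone T (D.R σ), f ∈ E.ring := fun f hf => (hVmem f).1 (hσ f hf)
  have hr : (0 : ℝ) < (D.r : ℝ) := by
    have := D.r_pos
    exact_mod_cast this
  set A : ℝ := -((ε * D.w σ i : ℤ) : ℝ) / D.r with hA
  have hcan : E.canOrd = A := toric_canOrd T D E σ hring (ε * D.w σ i) (hχ (D.w σ))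
  -- the cocharacter lies in the cone of `σ`
  have hpos0 : ∀ p ∈ D.P, 0 ≤ (ε : ℝ) * p i + A := by
    obtain ⟨d, e, hd, he⟩ := exists_dual (D.R σ) (D.det_ne σ)
    have hepos : ∀ j, 0 ≤ ε * e j i := by
      intro j
      have h1 : T.χ (e j) ∈ cone T (D.R σ) := mem_cone_chi T _ (fun k => by
        rw [he j, Pi.single_apply]
        split_ifs
        · exact hd.le
        · exact le_rfl)
      have h2 := hring _ h1
      have h3 : (0 : WithTop ℤ) ≤ v (T.χ (e j)) := h2
      rw [hχ] at h3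
      exact_mod_cast h3
    -- `R * E = d`
    have hER : (Matrix.of e) * (D.R σ) = d • (1 : Matrix (Fin (n + 1)) (Fin (n + 1)) ℤ) := by
      ext a b
      have h1 := congrFun (he a) b
      have h2 : ((Matrix.of e) * (D.R σ)) a b = Matrix.vecMul (e a) (D.R σ) b := rfl
      rw [h2, h1, Matrix.smul_apply, Matrix.one_apply, Pi.single_apply, smul_eq_mul]
      by_cases hab : a = b
      · rw [if_pos hab.symm, if_pos hab, mul_one]
      · rw [if_neg (Ne.symm hab), if_neg hab, mul_zero]
    have hRE : (D.R σ) * (Matrix.of e) = d • (1 : Matrix (Fin (n + 1)) (Fin (n + 1)) ℤ) := by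
      have hdet := D.det_ne σ
      have h1 : (D.R σ).adjugate * ((D.R σ) * ((Matrix.of e) * (D.R σ))) =
          (D.R σ).adjugate * ((D.R σ) * (d • (1 : Matrix (Fin (n + 1)) (Fin (n + 1)) ℤ))) := by
        rw [hER]
      have h2 : ((D.R σ) * (Matrix.of e)) * (D.R σ) =
          (d • (1 : Matrix (Fin (n + 1)) (Fin (n + 1)) ℤ)) * (D.R σ) := by
        rw [mul_assoc, hER, Matrix.smul_mul, Matrix.mul_smul, mul_one, one_mul]
      have h3 : (((D.R σ) * (Matrix.of e)) - (d • (1 : Matrix (Fin (n + 1)) (Fin (n + 1)) ℤ))) *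
          (D.R σ) = 0 := by
        rw [sub_mul, h2, sub_self]
      have h4 : (((D.R σ) * (Matrix.of e)) - (d • (1 : Matrix (Fin (n + 1)) (Fin (n + 1)) ℤ))) = 0 := by
        ext a b
        have h5 : Matrix.vecMul ((((D.R σ) * (Matrix.of e)) -
            (d • (1 : Matrix (Fin (n + 1)) (Fin (n + 1)) ℤ))) a) (D.R σ) = 0 := by
          funext c
          exact congrFun (congrFun h3 a) c
        have h6 := Matrix.eq_zero_of_vecMul_eq_zero hdet h5
        exact congrFun h6 b
      exact sub_eq_zero.1 h4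
    have hid : ∀ q : Fin (n + 1) → ℝ, (d : ℝ) * ((ε : ℝ) * q i) =
        ∑ j, ((ε * e j i : ℤ) : ℝ) * ∑ l, q l * ((D.R σ l j : ℤ) : ℝ) := by
      intro q
      have h1 : ∀ l, ∑ j, ((D.R σ l j : ℤ) : ℝ) * ((e j i : ℤ) : ℝ) = if l = i then (d : ℝ) else 0 := by
        intro l
        have h2 := congrFun (congrFun hRE l) i
        rw [Matrix.mul_apply, Matrix.smul_apply, Matrix.one_apply, smul_eq_mul] at h2
        have h3 : ((∑ j, D.R σ l j * Matrix.of e j i : ℤ) : ℝ) =
            ((d * (if l = i then 1 else 0) : ℤ) : ℝ) := by rw [h2]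
        push_cast at h3
        rw [mul_ite, mul_one, mul_zero] at h3
        exact h3
      have h4 : ∑ j, ((ε * e j i : ℤ) : ℝ) * ∑ l, q l * ((D.R σ l j : ℤ) : ℝ) =
          ∑ l, (ε : ℝ) * q l * ∑ j, ((D.R σ l j : ℤ) : ℝ) * ((e j i : ℤ) : ℝ) := by
        simp_rw [Finset.mul_sum]
        rw [Finset.sum_comm]
        refine Finset.sum_congr rfl fun l _ => Finset.sum_congr rfl fun j _ => ?_
        push_cast
        ring
      rw [h4]
      simp_rw [h1]
      rw [Finset.sum_eq_single i]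
      · rw [if_pos rfl]; ring
      · intro l _ hl
        rw [if_neg hl, mul_zero]
      · intro h
        exact absurd (Finset.mem_univ i) h
    intro p hp
    have hd' : (0 : ℝ) < d := by exact_mod_cast hd
    have hepos' : ∀ j, (0 : ℝ) ≤ ((ε * e j i : ℤ) : ℝ) := fun j => by exact_mod_cast hepos j
    have h1 := hid p
    have h2 := hid (fun l => ((D.w σ l : ℤ) : ℝ))
    have h3 : ∑ j, ((ε * e j i : ℤ) : ℝ) * ∑ l, ((D.w σ l : ℤ) : ℝ) * ((D.R σ l j : ℤ) : ℝ) =
        -(D.r : ℝ) * ∑ j, ((ε * e j i : ℤ) : ℝ) := by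
      simp_rw [sum_w, D.w_self σ]
      rw [Finset.mul_sum]
      refine Finset.sum_congr rfl fun j _ => ?_
      push_cast
      ring
    rw [h3] at h2
    have h4 : -∑ j, ((ε * e j i : ℤ) : ℝ) ≤ (d : ℝ) * ((ε : ℝ) * p i) := by
      rw [h1, ← Finset.sum_neg_distrib]
      refine Finset.sum_le_sum fun j _ => ?_
      have := mul_le_mul_of_nonneg_left (hp σ j) (hepos' j)
      linarith
    have h5 : (d : ℝ) * A = ∑ j, ((ε * e j i : ℤ) : ℝ) := by
      rw [hA]
      have h6 : (d : ℝ) * (-((ε * D.w σ i : ℤ) : ℝ) / D.r) =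
          -((d : ℝ) * ((ε : ℝ) * ((D.w σ i : ℤ) : ℝ))) / D.r := by
        push_cast
        ring
      rw [h6, h2]
      field_simp
    have h7 : 0 ≤ (d : ℝ) * ((ε : ℝ) * p i + A) := by
      rw [mul_add, h5]
      linarith
    exact nonneg_of_mul_nonneg_right h7 hd'
  have hA0 : 0 ≤ A := by
    have h0 : (0 : Fin (n + 1) → ℝ) ∈ D.P := by
      intro σ j
      simp
    have := hpos0 0 h0
    simpa using this
  -- log discrepancy
  have hlog : E.logDisc ≤ ENNReal.ofReal A := by
    unfold Variety.DivVal.logDisc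
    refine iSup₂_le (fun k hk => ?_)
    obtain ⟨a, ⟨g, hg, ha⟩, hak⟩ := hk
    have h1 : 1 ≤ v (Matrix.det (Matrix.of fun i j => T.θ i (g j))) := hform g hg
    have h2 : v (Matrix.det (Matrix.of fun i j => T.θ i (g j))) = (k : WithTop ℤ) := by
      rw [← toric_jac T D g, ← ha]
      exact hak
    rw [h2] at h1
    have h3 : (1 : ℤ) ≤ k := by exact_mod_cast h1
    have h4 : (1 : ℝ) ≤ k := by exact_mod_cast h3
    rw [hcan]
    apply ENNReal.ofReal_le_ofReal
    linarith
  set b : Fin (n + 1) → ℝ := Pi.single i (ε : ℝ) with hbdef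
  have hbsum : ∀ q : Fin (n + 1) → ℝ, ∑ k, b k * q k = (ε : ℝ) * q i := by
    intro q
    rw [Finset.sum_eq_single i]
    · rw [hbdef, Pi.single_eq_same]
    · intro k _ hk
      rw [hbdef, Pi.single_eq_of_ne hk, zero_mul]
    · intro h
      exact absurd (Finset.mem_univ i) h
  have hS := toric_le_S T D hb E b A (fun p hp => by rw [hbsum]; exact hpos0 p hp) (by
    intro m t hm ht
    set Us : Set (Fin (n + 1) → ℤ) := {u ∈ D.pts m | (m : ℝ) * t ≤
      ∑ i, b i * (u i : ℝ) + A * m} with hUs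
    have hfin : (D.pts m).Finite := D.pts_finite hb m hm
    have hant : (toricVar T D).antican m = Submodule.span ℂ (T.χ '' D.pts m) := by
      ext f
      exact toric_antican T D m f
    have hfd : FiniteDimensional ℂ ((toricVar T D).antican m) := by
      rw [hant]
      exact FiniteDimensional.span_of_finite ℂ (hfin.image _)
    have hle : E.filt m t ≤ (toricVar T D).antican m := fun f hf => hf.1
    have hfd2 : FiniteDimensional ℂ (E.filt m t) :=
      Submodule.finiteDimensional_of_le hle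
    rw [← finrank_span_image T.χ T.li Us]
    apply Submodule.finrank_mono
    rw [Submodule.span_le]
    rintro _ ⟨u, hu, rfl⟩
    refine ⟨?_, fun k hk => ?_⟩
    · rw [toric_antican]
      exact Submodule.subset_span ⟨u, hu.1, rfl⟩
    · have h1 : E.v (T.χ u) = ((ε * u i : ℤ) : WithTop ℤ) := hχ u
      rw [h1] at hk
      have h2 : ε * u i = k := by exact_mod_cast hk
      have h3 := hu.2
      rw [hbsum (fun l => ((u l : ℤ) : ℝ))] at h3
      rw [hcan, ← h2]
      push_cast
      linarith)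
  have hVpos := D.P_volume_pos
  have hVt : volume D.P ≠ ⊤ := hb.measure_lt_top.ne
  have hfinal := hS.trans ((hK E).trans hlog)
  rw [hbsum, ENNReal.div_le_iff hVpos.ne' hVt] at hfinal
  have hreal : volume D.P = ENNReal.ofReal (volume.real D.P) := (ENNReal.ofReal_toReal hVt).symm
  rw [hreal, ← ENNReal.ofReal_mul hA0, ENNReal.ofReal_le_ofReal_iff
    (mul_nonneg hA0 measureReal_nonneg)] at hfinal
  linarith

/-- K-semistable toric Fano varieties have barycentre `0`. -/
theorem bary_zero (T : TorusField (n + 1) K) (D : SData (n + 1))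
    (hK : (toricVar T D).KSemistable) (i : Fin (n + 1)) : ∫ p in D.P, p i = 0 := by
  have h1 := bary_le T D hK i 1 (by norm_num)
  have h2 := bary_le T D hK i (-1) (by norm_num)
  push_cast at h1 h2
  linarith

end Pool.Agent.R891.TG
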