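import Pool.Agent.R891.TG.Bnd

/-!
Zero-sum relations of minimal length among the rays of a smooth toric Fano variety.
-/

open scoped ENNReal

noncomputable section

namespace Pool.Agent.R891.TG

open Pool.Agent.Helper774.KSing
open Pool.Agent.Helper774.KStab (TorusField IntVal)

variable {n : ℕ}

/-- the ray `j` of the cone `σ` -/
def col (D : SData n) (σ : D.ι) (j : Fin n) : Fin n → ℤ := fun i => D.R σ i j

theorem vecMul_col (D : SData n) (σ : D.ι) (j : Fin n) (u : Fin n → ℤ) :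
    Matrix.vecMul u (D.R σ) j = u ⬝ᵥ col D σ j := rfl

/-- the set of the rays -/
def rays (D : SData n) : Set (Fin n → ℤ) := {v | ∃ σ j, v = col D σ j}

theorem w_dot_ge (D : SData n) (σ : D.ι) {v : Fin n → ℤ} (hv : v ∈ rays D) :
    -(D.r : ℤ) ≤ D.w σ ⬝ᵥ v := by
  obtain ⟨τ, j, rfl⟩ := hv
  exact D.vert σ τ j

theorem w_dot_col (D : SData n) (σ : D.ι) (j : Fin n) : D.w σ ⬝ᵥ col D σ j = -(D.r : ℤ) :=
  D.w_self σ j

theorem eq_col_of (D : SData n) (σ : D.ι) {v : Fin n → ℤ} (hv : v ∈ rays D)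
    (h : D.w σ ⬝ᵥ v = -(D.r : ℤ)) : ∃ k, v = col D σ k := by
  obtain ⟨τ, j, rfl⟩ := hv
  obtain ⟨k, hk⟩ := D.strict σ τ j h
  exact ⟨k, funext hk⟩

/-- In a smooth complete fan each lattice vector is a sum of rays of one cone. -/
theorem exists_cone_int (D : SData n) (hs : ∀ σ, IsUnit (D.R σ).det) (x : Fin n → ℤ) :
    ∃ σ : D.ι, ∃ a : Fin n → ℕ, x = ∑ j, a j • col D σ j := by
  obtain ⟨σ, a, ha, hx⟩ := exists_cone D (fun i => (x i : ℝ))
  set a' : Fin n → ℤ := ((D.R σ)⁻¹).mulVec x with ha'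
  have h1 : (D.R σ).mulVec a' = x := by
    rw [ha', Matrix.mulVec_mulVec, Matrix.mul_nonsing_inv _ (hs σ), Matrix.one_mulVec]
  -- the real coordinates agree
  set M : Matrix (Fin n) (Fin n) ℝ := (D.R σ).map (fun z : ℤ => (z : ℝ)) with hM
  have hdet : M.det ≠ 0 := by
    have h1 : M.det = ((D.R σ).det : ℝ) := by
      rw [hM]
      exact (Int.cast_det (R := ℝ) (D.R σ)).symm
    rw [h1]
    exact_mod_cast D.det_ne σ
  have h2 : M.mulVec a = M.mulVec (fun j => (a' j : ℝ)) := by
    funext i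
    have h3 := hx i
    have h4 := congrFun h1 i
    have h5 : M.mulVec a i = ((x i : ℤ) : ℝ) := h3.symm
    have h6 : M.mulVec (fun j => (a' j : ℝ)) i = ((x i : ℤ) : ℝ) := by
      rw [← h4]
      simp only [Matrix.mulVec, dotProduct, hM, Matrix.map_apply]
      push_cast
      rfl
    rw [h5, h6]
  have h3 : a = fun j => (a' j : ℝ) := by
    have hunit : IsUnit M.det := isUnit_iff_ne_zero.2 hdet
    have h4 := congrArg (fun z => M⁻¹.mulVec z) h2
    simp only [Matrix.mulVec_mulVec, Matrix.nonsing_inv_mul _ hunit, Matrix.one_mulVec] at h4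
    exact h4
  have h4 : ∀ j, 0 ≤ a' j := by
    intro j
    have h5 : (0 : ℝ) ≤ ((a' j : ℤ) : ℝ) := by
      have := ha j
      rw [h3] at this
      exact this
    exact_mod_cast h5
  refine ⟨σ, fun j => (a' j).toNat, ?_⟩
  funext i
  rw [← h1, Finset.sum_apply]
  simp only [Matrix.mulVec, dotProduct]
  refine Finset.sum_congr rfl fun j _ => ?_
  rw [Pi.smul_apply, nsmul_eq_mul, Int.toNat_of_nonneg (h4 j), mul_comm]
  rfl

/-- the multiset `∑ a_j {v_j}` -/
def ms (D : SData n) (σ : D.ι) (a : Fin n → ℕ) : Multiset (Fin n → ℤ) :=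
  ∑ j, a j • ({col D σ j} : Multiset (Fin n → ℤ))

theorem ms_sum (D : SData n) (σ : D.ι) (a : Fin n → ℕ) :
    (ms D σ a).sum = ∑ j, a j • col D σ j := by
  unfold ms
  rw [Multiset.sum_sum]
  refine Finset.sum_congr rfl fun j _ => ?_
  rw [Multiset.sum_nsmul, Multiset.sum_singleton]

theorem ms_card (D : SData n) (σ : D.ι) (a : Fin n → ℕ) : (ms D σ a).card = ∑ j, a j := by
  unfold ms
  rw [Multiset.card_sum]
  refine Finset.sum_congr rfl fun j _ => ?_
  rw [Multiset.card_nsmul, Multiset.card_singleton, mul_one]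

theorem ms_mem (D : SData n) (σ : D.ι) (a : Fin n → ℕ) {v : Fin n → ℤ} (hv : v ∈ ms D σ a) :
    v ∈ rays D := by
  unfold ms at hv
  rw [Multiset.mem_sum] at hv
  obtain ⟨j, _, hj⟩ := hv
  have h1 := Multiset.mem_of_mem_nsmul hj
  rw [Multiset.mem_singleton] at h1
  exact ⟨σ, j, h1⟩

/-- zero-sum multisets of rays -/
def Zs (D : SData n) (s : Multiset (Fin n → ℤ)) : Prop :=
  s ≠ 0 ∧ (∀ v ∈ s, v ∈ rays D) ∧ s.sum = 0

theorem exists_Zs (D : SData n) (hs : ∀ σ, IsUnit (D.R σ).det) : ∃ s, Zs D s := by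
  obtain ⟨σ⟩ := D.ne
  set j0 : Fin n := ⟨0, D.pos⟩
  obtain ⟨τ, a, ha⟩ := exists_cone_int D hs (-col D σ j0)
  refine ⟨col D σ j0 ::ₘ ms D τ a, Multiset.cons_ne_zero, ?_, ?_⟩
  · intro v hv
    rcases Multiset.mem_cons.1 hv with h | h
    · exact ⟨σ, j0, h⟩
    · exact ms_mem D τ a h
  · rw [Multiset.sum_cons, ms_sum, ← ha, add_neg_cancel]

theorem dot_msum (w : Fin n → ℤ) (s : Multiset (Fin n → ℤ)) :
    w ⬝ᵥ s.sum = (s.map fun v => w ⬝ᵥ v).sum := by
  induction s using Multiset.induction_on with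
  | empty => simp
  | cons a s ih => rw [Multiset.sum_cons, dotProduct_add, Multiset.map_cons, Multiset.sum_cons, ih]

theorem msum_ge (D : SData n) (σ : D.ι) (s : Multiset (Fin n → ℤ)) (hs : ∀ v ∈ s, v ∈ rays D) :
    -(D.r : ℤ) * s.card ≤ (s.map fun v => D.w σ ⬝ᵥ v).sum := by
  induction s using Multiset.induction_on with
  | empty => simp
  | cons a s ih =>
    rw [Multiset.map_cons, Multiset.sum_cons, Multiset.card_cons]
    have h1 := ih fun v hv => hs v (Multiset.mem_cons_of_mem hv)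
    have h2 := w_dot_ge D σ (hs a (Multiset.mem_cons_self a s))
    push_cast
    linarith

theorem msum_eq (D : SData n) (σ : D.ι) (s : Multiset (Fin n → ℤ)) (hs : ∀ v ∈ s, ∃ k, v = col D σ k) :
    (s.map fun v => D.w σ ⬝ᵥ v).sum = -(D.r : ℤ) * s.card := by
  induction s using Multiset.induction_on with
  | empty => simp
  | cons a s ih =>
    rw [Multiset.map_cons, Multiset.sum_cons, Multiset.card_cons,
      ih fun v hv => hs v (Multiset.mem_cons_of_mem hv)]
    obtain ⟨k, hk⟩ := hs a (Multiset.mem_cons_self a s)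
    rw [hk, w_dot_col]
    push_cast
    ring

/-- A proper part of a minimal zero-sum multiset spans a cone. -/
theorem proper_cone (D : SData n) (hs : ∀ σ, IsUnit (D.R σ).det) (s1 s2 : Multiset (Fin n → ℤ))
    (hZ : Zs D (s1 + s2)) (hmin : ∀ s', Zs D s' → (s1 + s2).card ≤ s'.card) (h2 : s2 ≠ 0) :
    ∃ τ : D.ι, ∀ v ∈ s1, ∃ k, v = col D τ k := by
  obtain ⟨τ, a, ha⟩ := exists_cone_int D hs s1.sum
  have hr : (0 : ℤ) < D.r := by exact_mod_cast D.r_pos
  have hZ' : Zs D (s2 + ms D τ a) := by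
    refine ⟨?_, ?_, ?_⟩
    · intro h
      have h3 := congrArg Multiset.card h
      rw [Multiset.card_add, Multiset.card_zero] at h3
      apply h2
      rw [← Multiset.card_eq_zero]
      omega
    · intro v hv
      rcases Multiset.mem_add.1 hv with h | h
      · exact hZ.2.1 v (Multiset.mem_add.2 (Or.inr h))
      · exact ms_mem D τ a h
    · rw [Multiset.sum_add, ms_sum, ← ha, add_comm, ← Multiset.sum_add]
      exact hZ.2.2
  have h3 := hmin _ hZ'
  rw [Multiset.card_add, Multiset.card_add, ms_card] at h3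
  have h4 : D.w τ ⬝ᵥ s1.sum = -(D.r : ℤ) * ∑ j, (a j : ℤ) := by
    rw [ha, dotProduct_sum, Finset.mul_sum]
    refine Finset.sum_congr rfl fun j _ => ?_
    rw [dotProduct_smul, w_dot_col, nsmul_eq_mul]
    ring
  have hray : ∀ v ∈ s1, v ∈ rays D := fun v hv => hZ.2.1 v (Multiset.mem_add.2 (Or.inl hv))
  refine ⟨τ, fun v hv => ?_⟩
  refine eq_col_of D τ (hray v hv) ?_
  have h5 := w_dot_ge D τ (hray v hv)
  obtain ⟨t, ht⟩ := Multiset.exists_cons_of_mem hv
  have h6 := msum_ge D τ t (fun u hu => hray u (by rw [ht]; exact Multiset.mem_cons_of_mem hu))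
  have h7 : D.w τ ⬝ᵥ s1.sum = D.w τ ⬝ᵥ v + (t.map fun v => D.w τ ⬝ᵥ v).sum := by
    rw [dot_msum, ht, Multiset.map_cons, Multiset.sum_cons]
  have h8 : (s1.card : ℤ) = t.card + 1 := by
    rw [ht, Multiset.card_cons]
    push_cast
    rfl
  have h9 : (s1.card : ℤ) ≤ ∑ j, (a j : ℤ) := by
    have : s1.card ≤ ∑ j, a j := by omega
    exact_mod_cast this
  have h10 : -(D.r : ℤ) * ∑ j, (a j : ℤ) ≤ -(D.r : ℤ) * s1.card := by nlinarith
  rw [h8] at h10
  rw [← h4, h7] at h10
  nlinarith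

/-- The combinatorial structure: a relation `v_0 + ∑_{j ∈ I} v_j = 0` with the `v_j`, `j ∈ I`, in one
cone; if `I` is everything then the rays and cones are those of `ℙ^n`. -/
theorem comb (D : SData n) (hs : ∀ σ, IsUnit (D.R σ).det) :
    ∃ (τ : D.ι) (I : Finset (Fin n)) (v0 : Fin n → ℤ), v0 ∈ rays D ∧ I.Nonempty ∧
      v0 + ∑ j ∈ I, col D τ j = 0 ∧
      (I = Finset.univ → ∀ l : Fin n, ∃ τ' : D.ι, (∃ k, v0 = col D τ' k) ∧
        (∀ j, j ≠ l → ∃ k, col D τ j = col D τ' k) ∧ ∀ j, v0 ≠ col D τ j) := by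
  classical
  obtain ⟨s, hZ, hmin⟩ : ∃ s, Zs D s ∧ ∀ s', Zs D s' → s.card ≤ s'.card := by
    have hne : {s | Zs D s}.Nonempty := exists_Zs D hs
    obtain ⟨s, h1, h2⟩ := (measure (Multiset.card (α := Fin n → ℤ))).wf.has_min _ hne
    refine ⟨s, h1, fun s' hs' => ?_⟩
    have := h2 s' hs'
    exact not_lt.1 this
  have hr : (0 : ℤ) < D.r := by exact_mod_cast D.r_pos
  have hcard : ∀ τ : D.ι, ¬ (∀ v ∈ s, ∃ k, v = col D τ k) := by
    intro τ h
    have h1 := msum_eq D τ s h
    rw [← dot_msum, hZ.2.2, dotProduct_zero] at h1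
    have h2 : 0 < s.card := Multiset.card_pos.2 hZ.1
    have h3 : (0 : ℤ) < s.card := by exact_mod_cast h2
    nlinarith
  have hnd : s.Nodup := by
    rw [Multiset.nodup_iff_ne_cons_cons]
    intro v t ht
    have hst : s = (v ::ₘ t) + {v} := by
      rw [ht, add_comm, Multiset.singleton_add]
    obtain ⟨τ, hτ⟩ := proper_cone D hs (v ::ₘ t) {v} (hst ▸ hZ) (hst ▸ hmin)
      (Multiset.singleton_ne_zero v)
    refine hcard τ fun u hu => hτ u ?_
    rw [hst] at hu
    rcases Multiset.mem_add.1 hu with h | h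
    · exact h
    · rw [Multiset.mem_singleton] at h
      rw [h]
      exact Multiset.mem_cons_self v t
  obtain ⟨v0, hv0⟩ := Multiset.exists_mem_of_ne_zero hZ.1
  obtain ⟨t, ht⟩ := Multiset.exists_cons_of_mem hv0
  have hst : s = t + {v0} := by
    rw [ht, add_comm, Multiset.singleton_add]
  obtain ⟨τ, hτ⟩ := proper_cone D hs t {v0} (hst ▸ hZ) (hst ▸ hmin)
    (Multiset.singleton_ne_zero v0)
  have hinj : Function.Injective (col D τ) := by
    intro j k hjk
    by_contra hne
    apply D.det_ne τ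
    apply Matrix.det_zero_of_column_eq hne
    intro i
    exact congrFun hjk i
  have hndt : t.Nodup := by
    rw [ht, Multiset.nodup_cons] at hnd
    exact hnd.2
  have hv0t : v0 ∉ t := by
    rw [ht, Multiset.nodup_cons] at hnd
    exact hnd.1
  set I : Finset (Fin n) := Finset.univ.filter fun j => col D τ j ∈ t with hI
  have htI : t = I.val.map (col D τ) := by
    refine (Multiset.Nodup.ext hndt ?_).2 ?_
    · exact I.nodup.map hinj
    · intro v
      rw [Multiset.mem_map]
      constructor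
      · intro hv
        obtain ⟨k, hk⟩ := hτ v hv
        refine ⟨k, ?_, hk.symm⟩
        rw [Finset.mem_val, hI, Finset.mem_filter]
        exact ⟨Finset.mem_univ k, hk ▸ hv⟩
      · rintro ⟨k, hk, rfl⟩
        rw [Finset.mem_val, hI, Finset.mem_filter] at hk
        exact hk.2
  have hv0r : v0 ∈ rays D := hZ.2.1 v0 hv0
  have hsum : v0 + ∑ j ∈ I, col D τ j = 0 := by
    have h1 := hZ.2.2
    rw [ht, Multiset.sum_cons, htI] at h1
    exact h1
  refine ⟨τ, I, v0, hv0r, ?_, hsum, ?_⟩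
  · by_contra hne
    rw [Finset.not_nonempty_iff_eq_empty] at hne
    rw [hne, Finset.sum_empty, add_zero] at hsum
    obtain ⟨σ, j, hj⟩ := hv0r
    have h1 := w_dot_col D σ j
    rw [← hj, hsum, dotProduct_zero] at h1
    omega
  · intro hIu l
    have hl : col D τ l ∈ s := by
      rw [ht]
      apply Multiset.mem_cons_of_mem
      have : l ∈ I := by rw [hIu]; exact Finset.mem_univ l
      rw [hI, Finset.mem_filter] at this
      exact this.2
    obtain ⟨t', ht'⟩ := Multiset.exists_cons_of_mem hl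
    have hst' : s = t' + {col D τ l} := by
      rw [ht', add_comm, Multiset.singleton_add]
    obtain ⟨τ', hτ'⟩ := proper_cone D hs t' {col D τ l} (hst' ▸ hZ) (hst' ▸ hmin)
      (Multiset.singleton_ne_zero _)
    have hne0 : ∀ j, v0 ≠ col D τ j := by
      intro j hj
      apply hv0t
      have : j ∈ I := by rw [hIu]; exact Finset.mem_univ j
      rw [hI, Finset.mem_filter] at this
      rw [hj]
      exact this.2
    refine ⟨τ', ?_, ?_, hne0⟩
    · apply hτ'
      have h1 : v0 ∈ s := hv0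
      rw [ht'] at h1
      rcases Multiset.mem_cons.1 h1 with h | h
      · exact absurd h (hne0 l)
      · exact h
    · intro j hj
      apply hτ'
      have h1 : col D τ j ∈ s := by
        rw [ht]
        apply Multiset.mem_cons_of_mem
        have : j ∈ I := by rw [hIu]; exact Finset.mem_univ j
        rw [hI, Finset.mem_filter] at this
        exact this.2
      rw [ht'] at h1
      rcases Multiset.mem_cons.1 h1 with h | h
      · exact absurd (hinj h) hj
      · exact h

end Pool.Agent.R891.TG
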