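import Pool.Agent.R891.TG.Comb
import Pool.Agent.Helper774.KStab.Proj

/-!
Recognition of projective space.
-/

open scoped ENNReal

noncomputable section

namespace Pool.Agent.R891.TG

open Pool.Agent.Helper774.KSing
open Pool.Agent.Helper774.KStab (TorusField IntVal)

/-- The coordinate ring `ℂ[x_0 / x_i, ..., x_n / x_i]` of the standard chart `x_i ≠ 0` of the projective
space with affine coordinates `y_1, ..., y_n`, i.e. with homogeneous coordinates
`x_0 = 1, x_1 = y_1, ..., x_n = y_n`. -/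
def projChart {n : ℕ} {K : Type} [Field K] [Algebra ℂ K] (y : Fin n → K) (i : Fin (n + 1)) :
    Subalgebra ℂ K :=
  Algebra.adjoin ℂ (Set.range fun j : Fin (n + 1) =>
    (Fin.cons 1 y : Fin (n + 1) → K) j / (Fin.cons 1 y : Fin (n + 1) → K) i)

/-- `X ≅ ℙ^n`, `n = dim X`: the function field of `X` contains algebraically independent elements
`y_1, ..., y_n` such that the points of `X` (the local rings) are the points of the standard charts
`Spec ℂ[x_0 / x_i, ..., x_n / x_i]` of `ℙ^n`, where `x_0 = 1`, `x_j = y_j`. -/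
def IsProj (X : Variety) : Prop :=
  ∃ y : Fin X.dim → X.K, AlgebraicIndependent ℂ y ∧
    X.points = {A | ∃ (i : Fin (X.dim + 1)) (p : Ideal (projChart y i)), p.IsPrime ∧
      A = locRing (projChart y i) p}

variable {n : ℕ} {K : Type} [Field K] [Algebra ℂ K]

theorem chi_sum' (T : TorusField n K) {ι : Type} (s : Finset ι) (f : ι → Fin n → ℤ) :
    T.χ (∑ k ∈ s, f k) = ∏ k ∈ s, T.χ (f k) := by
  classical
  induction s using Finset.induction_on with
  | empty => rw [Finset.sum_empty, Finset.prod_empty, T.χ_zero]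
  | insert a s ha ih => rw [Finset.sum_insert ha, Finset.prod_insert ha, T.χ_add, ih]

/-- the characters of the homogeneous coordinates -/
def U (D : SData n) (τ : D.ι) : Fin (n + 1) → (Fin n → ℤ) :=
  Fin.cons 0 (fun j => ((D.R τ)⁻¹) j)

/-- the rays of projective space -/
def vv (D : SData n) (τ : D.ι) (v0 : Fin n → ℤ) : Fin (n + 1) → (Fin n → ℤ) :=
  Fin.cons v0 (col D τ)

theorem inv_dot (D : SData n) (τ : D.ι) (hu : IsUnit (D.R τ).det) (j k : Fin n) :
    ((D.R τ)⁻¹) j ⬝ᵥ col D τ k = if j = k then 1 else 0 := by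
  have h1 := congrFun (congrFun (Matrix.nonsing_inv_mul _ hu) j) k
  rw [Matrix.mul_apply, Matrix.one_apply] at h1
  exact h1

theorem U_dot (D : SData n) (τ : D.ι) (hu : IsUnit (D.R τ).det) (v0 : Fin n → ℤ)
    (hsum : v0 + ∑ j, col D τ j = 0) (i j k : Fin (n + 1)) :
    (U D τ j - U D τ i) ⬝ᵥ vv D τ v0 k = (if j = k then 1 else 0) - (if i = k then 1 else 0) := by
  have hv0 : v0 = -∑ j, col D τ j := eq_neg_of_add_eq_zero_left hsum
  have hU0 : ∀ w, U D τ 0 ⬝ᵥ w = 0 := by
    intro w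
    unfold U
    rw [Fin.cons_zero, zero_dotProduct]
  have hUs : ∀ j k : Fin n, U D τ j.succ ⬝ᵥ col D τ k = if j = k then 1 else 0 := by
    intro j k
    unfold U
    rw [Fin.cons_succ]
    exact inv_dot D τ hu j k
  have hUv : ∀ j : Fin n, U D τ j.succ ⬝ᵥ v0 = -1 := by
    intro j
    rw [hv0, dotProduct_neg, dotProduct_sum]
    simp_rw [hUs]
    rw [Finset.sum_ite_eq, if_pos (Finset.mem_univ _)]
  rw [sub_dotProduct]
  refine Fin.cases ?_ (fun k => ?_) k
  · have hv : vv D τ v0 0 = v0 := rfl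
    rw [hv]
    refine Fin.cases ?_ (fun j => ?_) j <;> refine Fin.cases ?_ (fun i => ?_) i
    · simp [hU0]
    · rw [hU0, hUv, if_pos rfl, if_neg (Fin.succ_ne_zero i)]; norm_num
    · rw [hU0, hUv, if_pos rfl, if_neg (Fin.succ_ne_zero j)]; norm_num
    · rw [hUv, hUv, if_neg (Fin.succ_ne_zero i), if_neg (Fin.succ_ne_zero j)]; norm_num
  · have hv : vv D τ v0 k.succ = col D τ k := rfl
    rw [hv]
    refine Fin.cases ?_ (fun j => ?_) j <;> refine Fin.cases ?_ (fun i => ?_) i
    · simp [hU0]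
    · rw [hU0, hUs, if_neg (Fin.succ_ne_zero k).symm]
      simp only [Fin.succ_inj]
    · rw [hU0, hUs, if_neg (Fin.succ_ne_zero k).symm]
      simp only [Fin.succ_inj]
    · rw [hUs, hUs]
      simp only [Fin.succ_inj]

theorem vv_sum (D : SData n) (τ : D.ι) (v0 : Fin n → ℤ)
    (hsum : v0 + ∑ j, col D τ j = 0) : ∑ k, vv D τ v0 k = 0 := by
  rw [Fin.sum_univ_succ]
  exact hsum

theorem dot_ext (D : SData n) (τ : D.ι) {u w : Fin n → ℤ}
    (h : ∀ j, u ⬝ᵥ col D τ j = w ⬝ᵥ col D τ j) : u = w := by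
  rw [← sub_eq_zero]
  apply Matrix.eq_zero_of_vecMul_eq_zero (D.det_ne τ)
  funext j
  rw [vecMul_col, sub_dotProduct, h j, sub_self]
  rfl

theorem U_expand (D : SData n) (τ : D.ι) (hu : IsUnit (D.R τ).det) (v0 : Fin n → ℤ)
    (hsum : v0 + ∑ j, col D τ j = 0) (i : Fin (n + 1)) (u : Fin n → ℤ) :
    u = ∑ k, (u ⬝ᵥ vv D τ v0 k) • (U D τ k - U D τ i) := by
  apply dot_ext D τ
  intro l
  have hl : col D τ l = vv D τ v0 l.succ := rfl
  rw [hl, sum_dotProduct]
  simp_rw [smul_dotProduct, U_dot D τ hu v0 hsum, smul_eq_mul, mul_sub, mul_ite, mul_one, mul_zero]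
  rw [Finset.sum_sub_distrib, Finset.sum_ite_eq', if_pos (Finset.mem_univ _)]
  have h1 : ∑ x, (if i = l.succ then u ⬝ᵥ vv D τ v0 x else 0) = 0 := by
    split_ifs
    · rw [← dotProduct_sum, vv_sum D τ v0 hsum, dotProduct_zero]
    · exact Finset.sum_const_zero
  rw [h1, sub_zero]

theorem Mset_eq (D : SData n) (τ : D.ι) (v0 : Fin n → ℤ) (hv : Function.Injective (vv D τ v0))
    (i : Fin (n + 1)) (τ' : D.ι) (h : ∀ k, k ≠ i → ∃ k', vv D τ v0 k = col D τ' k')
    (u : Fin n → ℤ) : u ∈ Mset (D.R τ') 0 ↔ ∀ k, k ≠ i → 0 ≤ u ⬝ᵥ vv D τ v0 k := by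
  constructor
  · intro hu k hk
    obtain ⟨k', hk'⟩ := h k hk
    rw [hk', ← vecMul_col]
    exact hu k'
  · intro hu m
    have h2 : ∀ j : Fin n, ∃ k', vv D τ v0 (i.succAbove j) = col D τ' k' := fun j =>
      h _ (Fin.succAbove_ne i j)
    choose f hf using h2
    have hfi : Function.Injective f := by
      intro a b hab
      have h3 : vv D τ v0 (i.succAbove a) = vv D τ v0 (i.succAbove b) := by
        rw [hf a, hf b, hab]
      exact Fin.succAbove_right_injective (hv h3)
    obtain ⟨j, rfl⟩ := (Finite.injective_iff_surjective.1 hfi) m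
    rw [vecMul_col, ← hf j]
    exact hu _ (Fin.succAbove_ne i j)

theorem cone_eq_projChart (T : TorusField n K) (D : SData n) (τ : D.ι) (hu : IsUnit (D.R τ).det)
    (v0 : Fin n → ℤ) (hsum : v0 + ∑ j, col D τ j = 0) (hv : Function.Injective (vv D τ v0))
    (i : Fin (n + 1)) (τ' : D.ι) (h : ∀ k, k ≠ i → ∃ k', vv D τ v0 k = col D τ' k') :
    cone T (D.R τ') = projChart (fun j => T.χ (((D.R τ)⁻¹) j)) i := by
  have hx : ∀ j, (Fin.cons 1 (fun j => T.χ (((D.R τ)⁻¹) j)) : Fin (n + 1) → K) j = T.χ (U D τ j) := by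
    intro j
    refine Fin.cases ?_ (fun j => ?_) j
    · rw [Fin.cons_zero]
      exact T.χ_zero.symm
    · rw [Fin.cons_succ]
      rfl
  have hxx : ∀ j, (Fin.cons 1 (fun j => T.χ (((D.R τ)⁻¹) j)) : Fin (n + 1) → K) j /
      (Fin.cons 1 (fun j => T.χ (((D.R τ)⁻¹) j)) : Fin (n + 1) → K) i =
      T.χ (U D τ j - U D τ i) := by
    intro j
    rw [hx, hx, sub_eq_add_neg, T.χ_add, chi_neg', div_eq_mul_inv]
  apply le_antisymm
  · unfold cone
    apply Algebra.adjoin_le
    rintro _ ⟨u, hu', rfl⟩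
    rw [Mset_eq D τ v0 hv i τ' h u] at hu'
    have h1 : u = ∑ k, (u ⬝ᵥ vv D τ v0 k).toNat • (U D τ k - U D τ i) := by
      conv_lhs => rw [U_expand D τ hu v0 hsum i u]
      refine Finset.sum_congr rfl fun k _ => ?_
      by_cases hk : k = i
      · rw [hk, sub_self, smul_zero, smul_zero]
      · conv_lhs => rw [← Int.toNat_of_nonneg (hu' k hk)]
        rw [natCast_zsmul]
    rw [SetLike.mem_coe, h1, chi_sum']
    refine Subalgebra.prod_mem _ fun k _ => ?_
    rw [chi_nsmul']
    refine Subalgebra.pow_mem _ ?_ _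
    rw [← hxx]
    exact Algebra.subset_adjoin ⟨k, rfl⟩
  · unfold projChart
    apply Algebra.adjoin_le
    rintro _ ⟨j, rfl⟩
    show _ ∈ cone T (D.R τ')
    simp only
    rw [hxx]
    apply mem_cone_chi
    rw [Mset_eq D τ v0 hv i τ' h]
    intro k hk
    rw [U_dot D τ hu v0 hsum, if_neg (Ne.symm hk), sub_zero]
    split_ifs <;> norm_num

theorem exists_ideal_congr {S S' : Subalgebra ℂ K} (h : S = S') (A : Set K) :
    (∃ p : Ideal S, p.IsPrime ∧ A = locRing S p) ↔ ∃ p : Ideal S', p.IsPrime ∧ A = locRing S' p := by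
  subst h
  exact Iff.rfl

theorem isProj_of (T : TorusField n K) (D : SData n) (τ : D.ι) (hu : IsUnit (D.R τ).det)
    (v0 : Fin n → ℤ) (hsum : v0 + ∑ j, col D τ j = 0)
    (h : ∀ l : Fin n, ∃ τ' : D.ι, (∃ k, v0 = col D τ' k) ∧
        (∀ j, j ≠ l → ∃ k, col D τ j = col D τ' k) ∧ ∀ j, v0 ≠ col D τ j) :
    IsProj (toricVar T D) := by
  have hpos := D.pos
  have hinj : Function.Injective (col D τ) := by
    intro j k hjk
    by_contra hne
    apply D.det_ne τ
    apply Matrix.det_zero_of_column_eq hne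
    intro i
    exact congrFun hjk i
  have hne0 : ∀ j, v0 ≠ col D τ j := (h ⟨0, hpos⟩).choose_spec.2.2
  have hv : Function.Injective (vv D τ v0) := by
    intro a b
    refine Fin.cases ?_ (fun a => ?_) a <;> refine Fin.cases ?_ (fun b => ?_) b
    · intro _; rfl
    · intro hab
      exact absurd hab (hne0 b)
    · intro hab
      exact absurd hab.symm (hne0 a)
    · intro hab
      have hab' : col D τ a = col D τ b := hab
      rw [hinj hab']
  have hτ : ∀ i : Fin (n + 1), ∃ τ' : D.ι, ∀ k, k ≠ i → ∃ k', vv D τ v0 k = col D τ' k' := by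
    intro i
    refine Fin.cases ?_ (fun l => ?_) i
    · refine ⟨τ, fun k hk => ?_⟩
      obtain ⟨k, rfl⟩ := Fin.exists_succ_eq.2 hk
      exact ⟨k, rfl⟩
    · obtain ⟨τ', h1, h2, -⟩ := h l
      refine ⟨τ', fun k hk => ?_⟩
      revert hk
      refine Fin.cases ?_ (fun k => ?_) k
      · intro _
        exact h1
      · intro hk
        exact h2 k (fun he => hk (by rw [he]))
  choose ρ hρ using hτ
  have hcone := fun i => cone_eq_projChart T D τ hu v0 hsum hv i (ρ i) (hρ i)
  refine ⟨fun j => T.χ (((D.R τ)⁻¹) j), ?_, ?_⟩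
  · have h1 := Pool.Agent.Helper774.KStab.h441_aeval_inj
      (T.reindex ((D.R τ)⁻¹) (D.R τ) (Matrix.nonsing_inv_mul _ hu))
    have h2 : (fun i : Fin n => (T.reindex ((D.R τ)⁻¹) (D.R τ)
        (Matrix.nonsing_inv_mul _ hu)).χ (Pi.single i 1)) = fun j => T.χ (((D.R τ)⁻¹) j) := by
      funext i
      show T.χ (Matrix.vecMul (Pi.single i 1) ((D.R τ)⁻¹)) = _
      rw [Matrix.single_one_vecMul]
      rfl
    rw [h2] at h1
    exact h1
  · ext A
    constructor
    · rintro ⟨σ, p, hp, rfl⟩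
      let f : (cone T (D.R σ)).toSubring →+* cone T (D.R σ) :=
        { toFun := fun x => ⟨x.1, x.2⟩
          map_one' := rfl
          map_mul' := fun _ _ => rfl
          map_zero' := rfl
          map_add' := fun _ _ => rfl }
      have := hp
      obtain ⟨V, hV1, hV2⟩ := vr_dom (cone T (D.R σ)).toSubring (p.comap f) inferInstance
      have hV1' : ∀ f ∈ cone T (D.R σ), f ∈ V := fun f hf => hV1 f hf
      have hV3 : ∀ s : cone T (D.R σ), s ∉ p ↔ (s : K) ≠ 0 ∧ (s : K)⁻¹ ∈ V := by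
        intro s
        exact hV2 ⟨s.1, s.2⟩
      have hloc := vr_loc (cone T (D.R σ)) p V hV3
      -- choose the chart
      obtain ⟨i, hi⟩ := Finite.exists_max (fun i : Fin (n + 1) => V.valuation (T.χ (U D τ i)))
      have hVi : ∀ g ∈ cone T (D.R (ρ i)), g ∈ V := by
        intro g hg
        rw [hcone i] at hg
        unfold projChart at hg
        induction hg using Algebra.adjoin_induction with
        | mem x hx =>
          obtain ⟨j, rfl⟩ := hx
          have hx : ∀ j, (Fin.cons 1 (fun j => T.χ (((D.R τ)⁻¹) j)) : Fin (n + 1) → K) j =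
              T.χ (U D τ j) := by
            intro j
            refine Fin.cases ?_ (fun j => ?_) j
            · rw [Fin.cons_zero]
              exact T.χ_zero.symm
            · rw [Fin.cons_succ]
              rfl
          simp only
          rw [hx, hx, ← V.valuation_le_one_iff, map_div₀]
          have h0 : V.valuation (T.χ (U D τ i)) ≠ 0 := by
            rw [Valuation.ne_zero_iff]; exact chi_ne' T _
          exact (div_le_one₀ (zero_lt_iff.mpr h0)).mpr (hi j)
        | algebraMap c => exact hV1' _ ((cone T (D.R σ)).algebraMap_mem c)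
        | add x y _ _ hx hy => exact V.add_mem _ _ hx hy
        | mul x y _ _ hx hy => exact V.mul_mem _ _ hx hy
      obtain ⟨p', hp', hp'2⟩ := vr_centre (cone T (D.R (ρ i))) V hVi
      have h5 := vr_loc (cone T (D.R (ρ i))) p' V hp'2
      have h6 := sep T D (ρ i) σ V hVi hV1'
      refine ⟨i, (exists_ideal_congr (hcone i) _).1 ⟨p', hp', ?_⟩⟩
      exact hloc.trans (h6.symm.trans h5.symm)
    · rintro ⟨i, hA⟩
      obtain ⟨p, hp, hA'⟩ := (exists_ideal_congr (hcone i) A).2 hA
      exact ⟨ρ i, p, hp, hA'⟩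

end Pool.Agent.R891.TG
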