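import Pool.Agent.R891.TG.Vol
import Pool.Agent.R891.TG.Pn

/-!
The volume gap for K-semistable toric Fano varieties: the upper bound.
-/

open scoped ENNReal

noncomputable section

namespace Pool.Agent.R891.TG

open Pool.Agent.Helper774.KSing
open Pool.Agent.Helper774.KStab (TorusField IntVal)
open MeasureTheory

variable {n : ℕ} {K : Type} [Field K] [Algebra ℂ K]

theorem gv_zero : gv 0 = 1 := by
  unfold gv
  norm_num

theorem fact_gv (n : ℕ) : (n.factorial : ℝ) * gv n = ((n : ℝ) + 1) ^ n := by
  unfold gv
  have h1 : (n.factorial : ℝ) ≠ 0 := by positivity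
  field_simp

theorem vol_le_of_real (T : TorusField n K) (D : SData n) (C : ℝ)
    (h : (n.factorial : ℝ) * volume.real D.P ≤ C) :
    (toricVar T D).vol ≤ ENNReal.ofReal C := by
  have hb := P_bounded D
  have hVt : volume D.P ≠ ⊤ := hb.measure_lt_top.ne
  rw [toric_vol T D hb]
  have h1 : volume D.P = ENNReal.ofReal (volume.real D.P) := (ENNReal.ofReal_toReal hVt).symm
  have h2 : ((n.factorial : ℕ) : ℝ≥0∞) = ENNReal.ofReal (n.factorial : ℝ) :=
    (ENNReal.ofReal_natCast _).symm
  rw [h1, h2, ← ENNReal.ofReal_mul (by positivity)]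
  exact ENNReal.ofReal_le_ofReal h

/-- A K-semistable toric Fano variety of dimension `n ≥ 2` which is not `ℙ^n` has volume at most
`2 n^n`. -/
theorem upper (T : TorusField (n + 1) K) (D : SData (n + 1)) (hn : 1 ≤ n)
    (hK : (toricVar T D).KSemistable) (hP : ¬ IsProj (toricVar T D)) :
    (toricVar T D).vol ≤ 2 * ((n + 1 : ℕ) : ℝ≥0∞) ^ (n + 1) := by
  have hbar := bary_zero T D hK
  have e : (2 * ((n + 1 : ℕ) : ℝ≥0∞) ^ (n + 1)) =
      ENNReal.ofReal (2 * ((n + 1 : ℕ) : ℝ) ^ (n + 1)) := by
    rw [ENNReal.ofReal_mul (by norm_num), ENNReal.ofReal_pow (by positivity),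
      ENNReal.ofReal_natCast]
    norm_num
  rw [e]
  apply vol_le_of_real
  by_cases hs : ∀ σ, IsUnit (D.R σ).det
  · obtain ⟨τ, I, v0, hv0, hI0, hsum, hI⟩ := comb D hs
    by_cases hIu : I = Finset.univ
    · exfalso
      apply hP
      rw [hIu] at hsum
      exact isProj_of T D τ (hs τ) v0 hsum (hI hIu)
    · have hcard : I.card < n + 1 := by
        have h1 := Finset.card_lt_univ_of_notMem (s := I) (x := (by
          by_contra hcon
          push Not at hcon
          exact hIu (Finset.eq_univ_iff_forall.2 hcon) : ∃ x, x ∉ I).choose) (by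
          exact (by
            by_contra hcon
            push Not at hcon
            exact hIu (Finset.eq_univ_iff_forall.2 hcon) : ∃ x, x ∉ I).choose_spec)
        rwa [Fintype.card_fin] at h1
      have hcard0 : 1 ≤ I.card := Finset.card_pos.2 hI0
      have hle : ∀ p ∈ D.P, ∑ j ∈ I, zc D τ p j ≤ (I.card : ℝ) + 1 := by
        intro p hp
        obtain ⟨ρ, k, hk⟩ := hv0
        have h1 := hp ρ k
        rw [zc_sum]
        have h2 : ∀ i, ((D.R ρ i k : ℤ) : ℝ) = -(∑ j ∈ I, ((D.R τ i j : ℤ) : ℝ)) := by
          intro i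
          have h3 := congrFun hsum i
          rw [hk, Pi.add_apply, Finset.sum_apply, Pi.zero_apply] at h3
          have h4 : D.R ρ i k = -∑ j ∈ I, D.R τ i j := eq_neg_of_add_eq_zero_left h3
          rw [h4]
          push_cast
          rfl
        have h3 : ∑ i, p i * ((D.R ρ i k : ℤ) : ℝ) =
            -∑ i, (∑ j ∈ I, ((D.R τ i j : ℤ) : ℝ)) * p i := by
          rw [← Finset.sum_neg_distrib]
          refine Finset.sum_congr rfl fun i _ => ?_
          rw [h2 i]
          ring
        rw [h3] at h1
        linarith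
      have hb := vol_bound D hbar τ I hcard hle
      have hdet : |((D.R τ).det : ℝ)| = 1 := by
        rcases Int.isUnit_iff.1 (hs τ) with h | h <;> rw [h] <;> norm_num
      rw [hdet, div_one] at hb
      have hnum := num_main (n := n + 1) (a := I.card) (b := n + 1 - I.card) hcard0 (by omega)
        (by omega)
      refine le_trans (mul_le_mul_of_nonneg_left hb (by positivity)) ?_
      exact_mod_cast hnum
  · push Not at hs
    obtain ⟨σ, hσ⟩ := hs
    have hb := vol_bound D hbar σ ∅ (by simp) (by
      intro p _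
      simp)
    rw [Finset.card_empty, gv_zero, one_mul, Nat.sub_zero] at hb
    have hdet : (2 : ℝ) ≤ |((D.R σ).det : ℝ)| := by
      have h1 : (2 : ℤ) ≤ |(D.R σ).det| := by
        have h2 := D.det_ne σ
        rw [Int.isUnit_iff] at hσ
        push Not at hσ
        have h3 : |(D.R σ).det| ≠ 1 := by
          intro h
          rcases (abs_eq (by norm_num : (0 : ℤ) ≤ 1)).1 h with h | h
          · exact hσ.1 h
          · exact hσ.2 h
        have h4 : 0 < |(D.R σ).det| := abs_pos.2 h2
        omega
      exact_mod_cast h1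
    have hg := gv_pos (n + 1)
    have h5 : volume.real D.P ≤ gv (n + 1) / 2 := by
      refine hb.trans ?_
      exact div_le_div_of_nonneg_left hg.le (by norm_num) hdet
    have h6 := num_sing (n := n + 1) (by omega)
    have h7 := fact_gv (n + 1)
    have h8 : (((n + 1).factorial : ℕ) : ℝ) * volume.real D.P ≤
        (((n + 1).factorial : ℕ) : ℝ) * (gv (n + 1) / 2) :=
      mul_le_mul_of_nonneg_left h5 (by positivity)
    refine h8.trans ?_
    have h9 : (((n + 1).factorial : ℕ) : ℝ) * (gv (n + 1) / 2) =
        (((n + 1 : ℕ) : ℝ) + 1) ^ (n + 1) / 2 := by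
      rw [← h7]; ring
    rw [h9]
    linarith

end Pool.Agent.R891.TG
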