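import Pool.Agent.R891.TG.PnVol2
import Pool.Agent.R891.TG.Upper

/-!
The example `ℙ^m × ℙ^1`.
-/

open scoped ENNReal

noncomputable section

namespace Pool.Agent.R891.TG

open Pool.Agent.Helper774.KSing
open Pool.Agent.Helper774.KStab (TorusField IntVal)
open Pool.Agent.Helper774.KStab (layer_cake)
open MeasureTheory

/-- the rays of `ℙ^m` -/
def pv (m : ℕ) : Fin (m + 1) → (Fin m → ℤ) := Fin.cons (fun _ => -1) (fun k => Pi.single k 1)

/-- the vertices of its polytope -/
def pw (m : ℕ) : Fin (m + 1) → (Fin m → ℤ) :=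
  Fin.cons (fun _ => -1) (fun k => (fun _ => -1) + Pi.single k ((m : ℤ) + 1))

theorem pw_pv (m : ℕ) (σ τ : Fin (m + 1)) :
    pw m σ ⬝ᵥ pv m τ = -1 + (if σ = τ then (m : ℤ) + 1 else 0) := by
  have h1 : ∀ k : Fin m, (fun _ => (-1 : ℤ)) ⬝ᵥ (Pi.single k 1 : Fin m → ℤ) = -1 := by
    intro k
    rw [dotProduct_single, mul_one]
  have h2 : ∀ k : Fin m, (Pi.single k ((m : ℤ) + 1) : Fin m → ℤ) ⬝ᵥ (fun _ => (-1 : ℤ)) =
      -((m : ℤ) + 1) := by
    intro k
    rw [single_dotProduct]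
    ring
  have h3 : (fun _ : Fin m => (-1 : ℤ)) ⬝ᵥ (fun _ => (-1 : ℤ)) = m := by
    simp [dotProduct]
  unfold pw pv
  refine Fin.cases ?_ (fun k => ?_) σ <;> refine Fin.cases ?_ (fun l => ?_) τ
  · rw [Fin.cons_zero, Fin.cons_zero, h3, if_pos rfl]; ring
  · rw [Fin.cons_zero, Fin.cons_succ, h1, if_neg (Fin.succ_ne_zero l).symm, add_zero]
  · rw [Fin.cons_succ, Fin.cons_zero, add_dotProduct, h3, h2, if_neg (Fin.succ_ne_zero k)]; ring
  · rw [Fin.cons_succ, Fin.cons_succ, add_dotProduct, h1, dotProduct_single, mul_one,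
      Pi.single_apply]
    simp only [Fin.succ_inj]
    by_cases h : k = l
    · rw [if_pos h.symm, if_pos h]
    · rw [if_neg (Ne.symm h), if_neg h]

theorem pv_sum (m : ℕ) : ∑ k, pv m k = 0 := by
  funext i
  rw [Fin.sum_univ_succ, Pi.add_apply, Finset.sum_apply]
  unfold pv
  simp only [Fin.cons_zero, Fin.cons_succ]
  rw [Finset.sum_eq_single i]
  · rw [Pi.single_eq_same]; rfl
  · intro k _ hk
    exact Pi.single_eq_of_ne (Ne.symm hk) _
  · intro h
    exact absurd (Finset.mem_univ i) h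

/-- combinatorial data of `ℙ^m` -/
def pnData (m : ℕ) (hm : 0 < m) : SData m where
  pos := hm
  ι := Fin (m + 1)
  R := fun σ => Matrix.of fun i j => pv m (σ.succAbove j) i
  det_ne := by
    intro σ h
    obtain ⟨u, hu0, hu⟩ := Matrix.exists_vecMul_eq_zero_iff.2 h
    have h1 : ∀ j, u ⬝ᵥ pv m (σ.succAbove j) = 0 := fun j => congrFun hu j
    have h2 : u ⬝ᵥ pv m σ = 0 := by
      have h3 : u ⬝ᵥ ∑ k, pv m k = 0 := by rw [pv_sum, dotProduct_zero]
      rw [dotProduct_sum, Fin.sum_univ_succAbove _ σ, Finset.sum_eq_zero (fun j _ => h1 j),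
        add_zero] at h3
      exact h3
    have h4 : ∀ τ, u ⬝ᵥ pv m τ = 0 := by
      intro τ
      by_cases hτ : τ = σ
      · rw [hτ]; exact h2
      · obtain ⟨j, rfl⟩ := Fin.exists_succAbove_eq hτ
        exact h1 j
    apply hu0
    funext k
    have h5 := h4 k.succ
    unfold pv at h5
    rw [Fin.cons_succ, dotProduct_single, mul_one] at h5
    exact h5
  prim := by
    intro σ j
    have h : ∀ τ : Fin (m + 1), ∃ u : Fin m → ℤ, u ⬝ᵥ pv m τ = 1 := by
      intro τ
      refine Fin.cases ?_ (fun k => ?_) τ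
      · refine ⟨Pi.single ⟨0, hm⟩ (-1), ?_⟩
        rw [single_dotProduct]
        rfl
      · refine ⟨Pi.single k 1, ?_⟩
        rw [single_dotProduct, one_mul]
        exact Pi.single_eq_same k 1
    exact h (σ.succAbove j)
  r := 1
  r_pos := le_rfl
  w := pw m
  w_self := by
    intro σ j
    show pw m σ ⬝ᵥ pv m (σ.succAbove j) = _
    rw [pw_pv, if_neg (Fin.succAbove_ne σ j).symm]
    norm_num
  vert := by
    intro σ τ j
    show _ ≤ pw m σ ⬝ᵥ pv m (τ.succAbove j)
    rw [pw_pv]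
    split_ifs
    · push_cast
      have : (0 : ℤ) ≤ m := Int.natCast_nonneg m
      linarith
    · norm_num
  strict := by
    intro σ τ j h
    have h1 : pw m σ ⬝ᵥ pv m (τ.succAbove j) = -((1 : ℕ) : ℤ) := h
    rw [pw_pv] at h1
    have h2 : τ.succAbove j ≠ σ := by
      intro he
      rw [if_pos he.symm] at h1
      have : (0 : ℤ) ≤ m := Int.natCast_nonneg m
      push_cast at h1
      linarith
    obtain ⟨k, hk⟩ := Fin.exists_succAbove_eq h2
    refine ⟨k, fun i => ?_⟩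
    rw [Matrix.of_apply, Matrix.of_apply, hk]
  nbr := by
    intro σ i
    refine ⟨σ.succAbove i, fun j hj => ?_, ?_⟩
    · show pw m (σ.succAbove i) ⬝ᵥ pv m (σ.succAbove j) = _
      rw [pw_pv, if_neg (fun h => hj (Fin.succAbove_right_injective h).symm)]
      norm_num
    · show pw m (σ.succAbove i) ⬝ᵥ pv m (σ.succAbove i) ≠ _
      rw [pw_pv, if_pos rfl]
      have : (0 : ℤ) ≤ m := Int.natCast_nonneg m
      push_cast
      linarith
  ne := ⟨0⟩

theorem pn_P (m : ℕ) (hm : 0 < m) (p : Fin m → ℝ) :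
    p ∈ (pnData m hm).P ↔ (∀ i, 0 ≤ p i + 1) ∧ ∑ i, (p i + 1) ≤ (m : ℝ) + 1 := by
  have h1 : ∀ τ : Fin (m + 1), ∀ k : Fin m, τ = k.succ → ∑ i, p i * ((pv m τ i : ℤ) : ℝ) = p k := by
    rintro _ k rfl
    unfold pv
    rw [Fin.cons_succ, Finset.sum_eq_single k]
    · rw [Pi.single_eq_same]; simp
    · intro i _ hi
      rw [Pi.single_eq_of_ne hi]; simp
    · intro h
      exact absurd (Finset.mem_univ k) h
  have h2 : ∑ i, p i * ((pv m 0 i : ℤ) : ℝ) = -∑ i, p i := by
    unfold pv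
    rw [Fin.cons_zero, ← Finset.sum_neg_distrib]
    exact Finset.sum_congr rfl fun i _ => by push_cast; ring
  have h3 : p ∈ (pnData m hm).P ↔ ∀ τ : Fin (m + 1), -1 ≤ ∑ i, p i * ((pv m τ i : ℤ) : ℝ) := by
    constructor
    · intro h τ
      obtain ⟨σ, hσ⟩ : ∃ σ : Fin (m + 1), τ ≠ σ := by
        by_cases hτ : τ = 0
        · exact ⟨(⟨0, hm⟩ : Fin m).succ, by rw [hτ]; exact (Fin.succ_ne_zero _).symm⟩
        · exact ⟨0, hτ⟩
      obtain ⟨j, rfl⟩ := Fin.exists_succAbove_eq hσ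
      exact h σ j
    · intro h σ j
      exact h (σ.succAbove j)
  rw [h3, Fin.forall_fin_succ, h2, Finset.sum_add_distrib, Finset.sum_const, Finset.card_univ,
    Fintype.card_fin, nsmul_eq_mul, mul_one]
  constructor
  · rintro ⟨h4, h5⟩
    refine ⟨fun i => ?_, by linarith⟩
    have := h5 i
    rw [h1 _ i rfl] at this
    linarith
  · rintro ⟨h4, h5⟩
    refine ⟨by linarith, fun i => ?_⟩
    rw [h1 _ i rfl]
    have := h4 i
    linarith

theorem pn_cut (m : ℕ) (hm : 0 < m) (i : Fin m) (t : ℝ) (ht0 : 0 ≤ t) (ht : t ≤ (m : ℝ) + 1) :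
    volume ((pnData m hm).P ∩ {p | t ≤ p i + 1}) =
      ENNReal.ofReal (((m : ℝ) + 1 - t) ^ m / m.factorial) := by
  have h1 : (pnData m hm).P ∩ {p | t ≤ p i + 1} =
      (fun q : Fin m → ℝ => q + ((fun _ => (1 : ℝ)) - Pi.single i t)) ⁻¹'
        {s : Fin m → ℝ | (∀ i, 0 ≤ s i) ∧ ∑ i, s i ≤ (m : ℝ) + 1 - t} := by
    ext p
    simp only [Set.mem_inter_iff, Set.mem_ofPred_eq, Set.mem_preimage, Pi.add_apply, Pi.sub_apply]
    rw [pn_P]
    have h2 : ∑ x, (p x + (1 - (Pi.single i t : Fin m → ℝ) x)) = ∑ x, (p x + 1) - t := by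
      have h3 : ∑ x, (Pi.single i t : Fin m → ℝ) x = t := by
        rw [Finset.sum_eq_single i]
        · rw [Pi.single_eq_same]
        · intro k _ hk
          rw [Pi.single_eq_of_ne hk]
        · intro h
          exact absurd (Finset.mem_univ i) h
      have h4 : ∑ x, (p x + (1 - (Pi.single i t : Fin m → ℝ) x)) =
          ∑ x, (p x + 1) - ∑ x, (Pi.single i t : Fin m → ℝ) x := by
        rw [← Finset.sum_sub_distrib]
        exact Finset.sum_congr rfl fun x _ => by ring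
      rw [h4, h3]
    rw [h2]
    constructor
    · rintro ⟨⟨h3, h4⟩, h5⟩
      refine ⟨fun x => ?_, by linarith⟩
      by_cases hx : x = i
      · rw [hx, Pi.single_eq_same]
        linarith
      · rw [Pi.single_eq_of_ne hx]
        have := h3 x
        linarith
    · rintro ⟨h3, h4⟩
      refine ⟨⟨fun x => ?_, by linarith⟩, ?_⟩
      · have h5 := h3 x
        by_cases hx : x = i
        · rw [hx, Pi.single_eq_same] at h5
          rw [hx]
          linarith
        · rw [Pi.single_eq_of_ne hx] at h5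
          linarith
      · have h5 := h3 i
        rw [Pi.single_eq_same] at h5
        linarith
  rw [h1, measure_preimage_add_right, vol_cl (Fin m) _ (by linarith), Fintype.card_fin]

theorem pn_vol (m : ℕ) (hm : 0 < m) : volume (pnData m hm).P = ENNReal.ofReal (gv m) := by
  have h := pn_cut m hm ⟨0, hm⟩ 0 le_rfl (by positivity)
  have h1 : (pnData m hm).P ∩ {p | (0 : ℝ) ≤ p ⟨0, hm⟩ + 1} = (pnData m hm).P := by
    apply Set.inter_eq_left.2
    intro p hp
    exact ((pn_P m hm p).1 hp).1 _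
  rw [h1, sub_zero] at h
  exact h

theorem pn_bary (m : ℕ) (hm : 0 < m) (i : Fin m) : ∫ p in (pnData m hm).P, p i = 0 := by
  have hb := P_bounded (pnData m hm)
  have hVt : volume (pnData m hm).P ≠ ⊤ := hb.measure_lt_top.ne
  have hsum : ∀ p : Fin m → ℝ, ∑ k, (Pi.single i (1 : ℝ) : Fin m → ℝ) k * p k = p i := by
    intro p
    rw [Finset.sum_eq_single i]
    · rw [Pi.single_eq_same, one_mul]
    · intro k _ hk
      rw [Pi.single_eq_of_ne hk, zero_mul]
    · intro h
      exact absurd (Finset.mem_univ i) h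
  have hlc := layer_cake (pnData m hm).P hb (pnData m hm).P_closed (Pi.single i 1) 1
    (fun p hp => by
      rw [hsum]
      exact ((pn_P m hm p).1 hp).1 i)
  simp_rw [hsum] at hlc
  rw [one_mul] at hlc
  have hV : volume.real (pnData m hm).P = gv m := by
    rw [Measure.real, pn_vol, ENNReal.toReal_ofReal (gv_pos m).le]
  rw [hV] at hlc
  -- the left side
  have hL : ∫⁻ t in Set.Ioi (0 : ℝ), volume ((pnData m hm).P ∩ {p | t ≤ p i + 1}) =
      ENNReal.ofReal (gv m) := by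
    have h1 : ∀ t ∈ Set.Ioi (0 : ℝ), volume ((pnData m hm).P ∩ {p | t ≤ p i + 1}) =
        (Set.Ioc (0 : ℝ) ((m : ℝ) + 1)).indicator
          (fun t => ENNReal.ofReal (((m : ℝ) + 1 - t) ^ m / m.factorial)) t := by
      intro t ht
      by_cases h : t ≤ (m : ℝ) + 1
      · rw [Set.indicator_of_mem (show t ∈ Set.Ioc (0 : ℝ) ((m : ℝ) + 1) from ⟨ht, h⟩)]
        exact pn_cut m hm i t (le_of_lt ht) h
      · rw [Set.indicator_of_notMem (fun hh => h hh.2)]
        have h2 : (pnData m hm).P ∩ {p | t ≤ p i + 1} = ∅ := by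
          rw [Set.eq_empty_iff_forall_notMem]
          rintro p ⟨hp, hpt⟩
          obtain ⟨h3, h4⟩ := (pn_P m hm p).1 hp
          have h5 : p i + 1 ≤ ∑ k, (p k + 1) :=
            Finset.single_le_sum (fun k _ => h3 k) (Finset.mem_univ i)
          have h6 : t ≤ p i + 1 := hpt
          linarith
        rw [h2, measure_empty]
    have h9 : Set.Ioc (0 : ℝ) ((m : ℝ) + 1) ∩ Set.Ioi 0 = Set.Ioc (0 : ℝ) ((m : ℝ) + 1) :=
      Set.inter_eq_left.2 fun t ht => ht.1
    rw [setLIntegral_congr_fun measurableSet_Ioi h1, lintegral_indicator measurableSet_Ioc,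
      Measure.restrict_restrict measurableSet_Ioc, h9]
    have hcont : Continuous fun t : ℝ => ((m : ℝ) + 1 - t) ^ m / (m.factorial : ℝ) := by fun_prop
    rw [← ofReal_integral_eq_lintegral_ofReal]
    · congr 1
      rw [← intervalIntegral.integral_of_le (by positivity), intervalIntegral.integral_div,
        intervalIntegral.integral_comp_sub_left (fun x => x ^ m) ((m : ℝ) + 1), integral_pow]
      unfold gv
      simp only [sub_self, sub_zero]
      rw [zero_pow (by omega), sub_zero, pow_succ]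
      have : (m.factorial : ℝ) ≠ 0 := by positivity
      field_simp
    · exact hcont.continuousOn.integrableOn_Icc.mono_set Set.Ioc_subset_Icc_self
    · refine (ae_restrict_iff' measurableSet_Ioc).mpr (Filter.Eventually.of_forall fun z hz => ?_)
      have : 0 ≤ (m : ℝ) + 1 - z := by linarith [hz.2]
      simp only [Pi.zero_apply]
      positivity
  have hlc' : ENNReal.ofReal (gv m) = ENNReal.ofReal ((∫ p in (pnData m hm).P, p i) + gv m) := by
    rw [← hL]
    exact hlc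
  have hg := gv_pos m
  by_contra hne
  rcases lt_or_gt_of_ne hne with h | h
  · have h1 : ENNReal.ofReal ((∫ p in (pnData m hm).P, p i) + gv m) < ENNReal.ofReal (gv m) := by
      rw [ENNReal.ofReal_lt_ofReal_iff hg]
      linarith
    rw [← hlc'] at h1
    exact lt_irrefl _ h1
  · have h1 : ENNReal.ofReal (gv m) < ENNReal.ofReal ((∫ p in (pnData m hm).P, p i) + gv m) := by
      rw [ENNReal.ofReal_lt_ofReal_iff (by linarith)]
      linarith
    rw [← hlc'] at h1
    exact lt_irrefl _ h1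

/-- barycentre of a product with `ℙ^1` -/
theorem prod_bary {n : ℕ} (D : SData (n + 1)) (hint : ∀ i, ∫ p in D.P, p i = 0) (l : Fin (n + 2)) :
    ∫ p in (prodData D).P, p l = 0 := by
  refine Fin.cases ?_ (fun l' => ?_) l
  · have h1 := jg7_setInt D (fun z => z.1 * 1)
    simp only [mul_one] at h1
    rw [h1]
    have h2 := MeasureTheory.setIntegral_prod_mul (μ := (MeasureTheory.volume : MeasureTheory.Measure ℝ))
      (ν := (MeasureTheory.volume : MeasureTheory.Measure (Fin (n + 1) → ℝ)))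
      (fun x : ℝ => x) (fun _ => (1 : ℝ)) (Set.Icc (-1 : ℝ) 1) D.P
    simp only [mul_one] at h2
    rw [MeasureTheory.Measure.volume_eq_prod, h2]
    have h3 : ∫ x in Set.Icc (-1 : ℝ) 1, x = 0 := by
      rw [MeasureTheory.integral_Icc_eq_integral_Ioc, ← intervalIntegral.integral_of_le (by norm_num)]
      simp
    rw [h3, zero_mul]
  · have h1 := jg7_setInt D (fun z => 1 * z.2 l')
    simp only [one_mul] at h1
    have h1' : ∫ p in (prodData D).P, p l'.succ = ∫ z in (Set.Icc (-1 : ℝ) 1) ×ˢ D.P, z.2 l' := h1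
    rw [h1']
    have h2 := MeasureTheory.setIntegral_prod_mul (μ := (MeasureTheory.volume : MeasureTheory.Measure ℝ))
      (ν := (MeasureTheory.volume : MeasureTheory.Measure (Fin (n + 1) → ℝ)))
      (fun _ : ℝ => (1 : ℝ)) (fun q => q l') (Set.Icc (-1 : ℝ) 1) D.P
    simp only [one_mul] at h2
    rw [MeasureTheory.Measure.volume_eq_prod, h2, hint l', mul_zero]

/-- volume of a product with `ℙ^1` -/
theorem prod_vol {n : ℕ} (D : SData (n + 1)) : volume (prodData D).P = 2 * volume D.P := by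
  have hmp := MeasureTheory.volume_preserving_piFinSuccAbove (fun _ : Fin (n + 2) => ℝ) 0
  have hpre : (prodData D).P =
      (MeasurableEquiv.piFinSuccAbove (fun _ : Fin (n + 2) => ℝ) 0) ⁻¹'
        ((Set.Icc (-1 : ℝ) 1) ×ˢ D.P) := by
    ext p
    rw [prod_P]
    simp only [Set.mem_preimage, Set.mem_prod, Set.mem_Icc, abs_le]
    rfl
  have hm : MeasurableSet ((Set.Icc (-1 : ℝ) 1) ×ˢ D.P) :=
    measurableSet_Icc.prod D.P_closed.measurableSet
  rw [hpre, hmp.measure_preimage hm.nullMeasurableSet, Measure.volume_eq_prod, Measure.prod_prod,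
    Real.volume_Icc]
  norm_num

theorem num_strict {n : ℕ} (hn : 2 ≤ n) : 2 * (n : ℝ) ^ n < ((n : ℝ) + 1) ^ n := by
  obtain ⟨k, rfl⟩ := Nat.exists_eq_add_of_le' hn
  have hn0 : (0 : ℝ) < ((k + 2 : ℕ) : ℝ) := by positivity
  have h1 : (((k + 2 : ℕ) : ℝ) + 1) ^ (k + 2) =
      (1 + 1 / ((k + 2 : ℕ) : ℝ)) ^ (k + 2) * ((k + 2 : ℕ) : ℝ) ^ (k + 2) := by
    rw [← mul_pow]
    congr 1
    field_simp
  rw [h1]
  have h2 : 1 + ((k : ℕ) : ℝ) * (1 / ((k + 2 : ℕ) : ℝ)) ≤ (1 + 1 / ((k + 2 : ℕ) : ℝ)) ^ k := by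
    apply one_add_mul_le_pow
    have : (0 : ℝ) ≤ 1 / ((k + 2 : ℕ) : ℝ) := by positivity
    linarith
  have h3 : 2 < (1 + 1 / ((k + 2 : ℕ) : ℝ)) ^ (k + 2) := by
    rw [pow_add]
    have h4 : (1 + ((k : ℕ) : ℝ) * (1 / ((k + 2 : ℕ) : ℝ))) * (1 + 1 / ((k + 2 : ℕ) : ℝ)) ^ 2 ≤
        (1 + 1 / ((k + 2 : ℕ) : ℝ)) ^ k * (1 + 1 / ((k + 2 : ℕ) : ℝ)) ^ 2 :=
      mul_le_mul_of_nonneg_right h2 (by positivity)
    refine lt_of_lt_of_le ?_ h4
    push_cast
    have h5 : (1 + (k : ℝ) * (1 / ((k : ℝ) + 2))) * (1 + 1 / ((k : ℝ) + 2)) ^ 2 - 2 =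
        (2 * ((k : ℝ) + 2) ^ 2 - 2 * ((k : ℝ) + 2) - 2) / ((k : ℝ) + 2) ^ 3 := by
      field_simp
      ring
    have h6 : 0 < (2 * ((k : ℝ) + 2) ^ 2 - 2 * ((k : ℝ) + 2) - 2) / ((k : ℝ) + 2) ^ 3 := by
      apply div_pos
      · nlinarith [Nat.cast_nonneg (α := ℝ) k]
      · positivity
    rw [← h5] at h6
    linarith
  exact mul_lt_mul_of_pos_right h3 (by positivity)

end Pool.Agent.R891.TG
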