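import Pool.Agent.R891.TG.Ex

/-!
The volume gap for K-semistable toric Fano varieties.
-/

open scoped ENNReal

noncomputable section

namespace Pool.Agent.R891.TG

open Pool.Agent.Helper774.KSing
open Pool.Agent.Helper774.KStab (TorusField IntVal)
open MeasureTheory

/-- The volumes of the K-semistable `ℚ`-factorial toric Fano varieties of dimension `n` which are not
isomorphic to `ℙ^n`. (`toricVar T D` is the toric variety of the complete simplicial fan of `D`, with
torus `Spec` of the ring of characters of `T`; it is a klt Fano variety.) -/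
def toricVolumes (n : ℕ) : Set ℝ≥0∞ :=
  {v | ∃ (K : Type) (_ : Field K) (_ : Algebra ℂ K) (T : TorusField n K) (D : SData n),
    (toricVar T D).IsFano ∧ (toricVar T D).IsKlt ∧ (toricVar T D).KSemistable ∧
      ¬ IsProj (toricVar T D) ∧ v = (toricVar T D).vol}

theorem example_vol {K : Type} [Field K] [Algebra ℂ K] (m : ℕ) (T : TorusField (m + 2) K) :
    (toricVar T (prodData (pnData (m + 1) (Nat.succ_pos m)))).vol =
      2 * ((m + 2 : ℕ) : ℝ≥0∞) ^ (m + 2) := by
  set D := pnData (m + 1) (Nat.succ_pos m) with hD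
  rw [toric_vol T (prodData D) (P_bounded _), prod_vol, hD, pn_vol]
  have h1 : (((m + 1 + 1).factorial : ℕ) : ℝ≥0∞) = ENNReal.ofReal ((m + 1 + 1).factorial : ℝ) :=
    (ENNReal.ofReal_natCast _).symm
  have h2 : (2 : ℝ≥0∞) = ENNReal.ofReal 2 := by norm_num
  have h3 : (2 * ((m + 2 : ℕ) : ℝ≥0∞) ^ (m + 2)) =
      ENNReal.ofReal (2 * ((m + 2 : ℕ) : ℝ) ^ (m + 2)) := by
    rw [ENNReal.ofReal_mul (by norm_num), ENNReal.ofReal_pow (by positivity),
      ENNReal.ofReal_natCast]
    norm_num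
  rw [h3, h1]
  nth_rewrite 1 [h2]
  rw [← ENNReal.ofReal_mul (by norm_num), ← ENNReal.ofReal_mul (by positivity)]
  congr 1
  rw [Nat.factorial_succ]
  have h4 := fact_gv (m + 1)
  push_cast at h4 ⊢
  calc ((m : ℝ) + 1 + 1) * (((m + 1).factorial : ℕ) : ℝ) * (2 * gv (m + 1))
      = 2 * ((m : ℝ) + 1 + 1) * ((((m + 1).factorial : ℕ) : ℝ) * gv (m + 1)) := by ring
    _ = 2 * ((m : ℝ) + 1 + 1) * ((m : ℝ) + 1 + 1) ^ (m + 1) := by rw [h4]
    _ = 2 * ((m : ℝ) + 2) ^ (m + 2) := by ring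

theorem antican_fin {n : ℕ} {K : Type} [Field K] [Algebra ℂ K] (T : TorusField n K) (D : SData n)
    (m : ℕ) (hm : 1 ≤ m) : FiniteDimensional ℂ ((toricVar T D).antican m) := by
  have hfin : (D.pts m).Finite := D.pts_finite (P_bounded D) m hm
  have hant : (toricVar T D).antican m = Submodule.span ℂ (T.χ '' D.pts m) := by
    ext f
    exact toric_antican T D m f
  rw [hant]
  exact FiniteDimensional.span_of_finite ℂ (hfin.image _)

theorem main (n : ℕ) (hn : 2 ≤ n) :
    IsGreatest (toricVolumes n) (2 * (n : ℝ≥0∞) ^ n) := by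
  obtain ⟨m, rfl⟩ := Nat.exists_eq_add_of_le' hn
  constructor
  · obtain ⟨K, _, _, ⟨T⟩⟩ := Pool.Agent.Helper774.KStab.exists_torusField (m + 2)
    set D := prodData (pnData (m + 1) (Nat.succ_pos m)) with hD
    refine ⟨K, inferInstance, inferInstance, T, D, toric_isFano T D, toric_klt T D,
      toric_KSemistable T D (P_bounded D) (prod_bary _ (pn_bary _ _)), ?_,
      (example_vol m T).symm⟩
    intro hP
    have h1 := proj_vol (toricVar T D) hP (antican_fin T D)
    have h2 : (toricVar T D).vol = 2 * ((m + 2 : ℕ) : ℝ≥0∞) ^ (m + 2) := example_vol m T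
    rw [h2] at h1
    have h3 := num_strict (n := m + 2) (by omega)
    have h4 : (2 * ((m + 2 : ℕ) : ℝ≥0∞) ^ (m + 2)) =
        ENNReal.ofReal (2 * ((m + 2 : ℕ) : ℝ) ^ (m + 2)) := by
      rw [ENNReal.ofReal_mul (by norm_num), ENNReal.ofReal_pow (by positivity),
        ENNReal.ofReal_natCast]
      norm_num
    have h5 : (((m + 2 + 1 : ℕ) : ℝ≥0∞) ^ (m + 2)) =
        ENNReal.ofReal ((((m + 2 : ℕ) : ℝ) + 1) ^ (m + 2)) := by
      rw [ENNReal.ofReal_pow (by positivity)]
      congr 1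
      rw [← ENNReal.ofReal_natCast]
      push_cast
      rfl
    have h6 : (((m + 2 + 1 : ℕ) : ℝ≥0∞) ^ (m + 2)) ≤ 2 * ((m + 2 : ℕ) : ℝ≥0∞) ^ (m + 2) := h1
    rw [h4, h5, ENNReal.ofReal_le_ofReal_iff (by positivity)] at h6
    linarith
  · rintro v ⟨K, _, _, T, D, -, -, hK, hP, rfl⟩
    exact upper T D (by omega) hK hP

end Pool.Agent.R891.TG
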