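import Mathlib

/-!
The numerical inequalities behind the volume gap.
-/

noncomputable section

namespace Pool.Agent.R891.TG

/-- `(a+1)^a / a!`, the lattice volume of the moment polytope of `ℙ^a` divided by `a!`. -/
def gv (a : ℕ) : ℝ := ((a : ℝ) + 1) ^ a / (a.factorial : ℝ)

/-- ratio -/
def rv (a : ℕ) : ℝ := (((a : ℝ) + 2) / ((a : ℝ) + 1)) ^ (a + 1)

theorem gv_pos (a : ℕ) : 0 < gv a := by
  unfold gv
  positivity

theorem rv_pos (a : ℕ) : 0 < rv a := by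
  unfold rv
  positivity

theorem gv_succ (a : ℕ) : gv (a + 1) = gv a * rv a := by
  unfold gv rv
  rw [Nat.factorial_succ]
  have h1 : (a.factorial : ℝ) ≠ 0 := by positivity
  have h2 : ((a : ℝ) + 1) ≠ 0 := by positivity
  push_cast
  rw [div_pow]
  have h3 : ((a : ℝ) + 1) ^ (a + 1) ≠ 0 := by positivity
  field_simp
  ring

theorem rv_mono_succ (k : ℕ) : rv k ≤ rv (k + 1) := by
  unfold rv
  push_cast
  set x : ℝ := ((k : ℝ) + 2) / ((k : ℝ) + 1) with hx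
  have hx0 : 0 < x := by positivity
  have hy : ((k : ℝ) + 1 + 2) / ((k : ℝ) + 1 + 1) = x * (1 + -(1 / ((k : ℝ) + 2) ^ 2)) := by
    rw [hx]
    field_simp
    ring
  rw [hy, mul_pow]
  have hb : 1 + ((k + 1 + 1 : ℕ) : ℝ) * (-(1 / ((k : ℝ) + 2) ^ 2)) ≤
      (1 + -(1 / ((k : ℝ) + 2) ^ 2)) ^ (k + 1 + 1) := by
    apply one_add_mul_le_pow
    have h1 : (1 : ℝ) / ((k : ℝ) + 2) ^ 2 ≤ 1 := by
      rw [div_le_one (by positivity)]
      nlinarith [Nat.cast_nonneg (α := ℝ) k]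
    linarith
  have h2 : x ^ (k + 1) = x ^ (k + 1 + 1) * (1 + ((k + 1 + 1 : ℕ) : ℝ) * (-(1 / ((k : ℝ) + 2) ^ 2))) := by
    rw [pow_succ x (k + 1), mul_assoc]
    have h3 : x * (1 + ((k + 1 + 1 : ℕ) : ℝ) * (-(1 / ((k : ℝ) + 2) ^ 2))) = 1 := by
      rw [hx]
      push_cast
      field_simp
      ring
    rw [h3, mul_one]
  rw [h2]
  exact mul_le_mul_of_nonneg_left hb (by positivity)

theorem rv_mono {a b : ℕ} (h : a ≤ b) : rv a ≤ rv b :=
  monotone_nat_of_le_succ rv_mono_succ h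

theorem gv_mul_le (a : ℕ) : ∀ b : ℕ, a ≤ b → gv (a + 1) * gv (b + 1) ≤ gv 1 * gv (a + b + 1) := by
  induction a with
  | zero =>
    intro b _
    rw [zero_add, zero_add]
  | succ a ih =>
    intro b hb
    have h1 : gv (a + 1 + 1) * gv (b + 1) ≤ gv (a + 1) * gv (b + 1 + 1) := by
      rw [gv_succ (a + 1), gv_succ (b + 1)]
      have h2 : rv (a + 1) ≤ rv (b + 1) := rv_mono (by omega)
      have h3 := gv_pos (a + 1)
      have h4 := gv_pos (b + 1)
      nlinarith [mul_le_mul_of_nonneg_left h2 (mul_pos h3 h4).le]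
    refine h1.trans ((ih (b + 1) (by omega)).trans (le_of_eq ?_))
    congr 2
    omega

theorem gv_mul_le' {a b : ℕ} (ha : 1 ≤ a) (hb : 1 ≤ b) : gv a * gv b ≤ gv 1 * gv (a + b - 1) := by
  obtain ⟨a, rfl⟩ := Nat.exists_eq_add_of_le' ha
  obtain ⟨b, rfl⟩ := Nat.exists_eq_add_of_le' hb
  rcases le_total a b with h | h
  · refine (gv_mul_le a b h).trans (le_of_eq ?_)
    congr 2
    omega
  · rw [mul_comm]
    refine (gv_mul_le b a h).trans (le_of_eq ?_)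
    congr 2
    omega

/-- `n! g(a) g(b) ≤ 2 n^n` for `a, b ≥ 1`, `n = a + b`. -/
theorem num_main {n a b : ℕ} (ha : 1 ≤ a) (hb : 1 ≤ b) (hn : a + b = n) :
    (n.factorial : ℝ) * (gv a * gv b) ≤ 2 * (n : ℝ) ^ n := by
  have h1 := gv_mul_le' ha hb
  have h2 : (n.factorial : ℝ) * (gv 1 * gv (a + b - 1)) = 2 * (n : ℝ) ^ n := by
    obtain ⟨m, rfl⟩ : ∃ m, n = m + 1 := ⟨n - 1, by omega⟩
    have h3 : a + b - 1 = m := by omega
    rw [h3]
    unfold gv
    rw [Nat.factorial_succ]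
    have h4 : (m.factorial : ℝ) ≠ 0 := by positivity
    push_cast
    rw [pow_succ ((m : ℝ) + 1) m]
    field_simp
    norm_num
  rw [← h2]
  exact mul_le_mul_of_nonneg_left h1 (by positivity)

/-- `(n+1)^n ≤ 4 n^n`. -/
theorem num_sing {n : ℕ} (hn : 1 ≤ n) : ((n : ℝ) + 1) ^ n ≤ 4 * (n : ℝ) ^ n := by
  have h1 := Real.one_add_inv_pow_le_exp (n := n)
  have h2 : Real.exp 1 ≤ 4 := by
    have := Real.exp_one_lt_d9
    linarith
  have hn0 : (0 : ℝ) < n := by exact_mod_cast hn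
  have h3 : ((n : ℝ) + 1) ^ n = (1 + (n : ℝ)⁻¹) ^ n * (n : ℝ) ^ n := by
    rw [← mul_pow]
    congr 1
    field_simp
  rw [h3]
  exact mul_le_mul_of_nonneg_right (h1.trans h2) (by positivity)

end Pool.Agent.R891.TG
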