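import Pool.Agent.R891.TG.Bnd
import Pool.Agent.R891.TG.Num
import Pool.Agent.TH984.GB.Simplex

/-!
The upper bound for the volume of a polytope with barycentre `0` from one vertex.
-/

open scoped ENNReal

noncomputable section

namespace Pool.Agent.R891.TG

open Pool.Agent.Helper774.KSing
open Pool.Agent.Helper774.KStab (TorusField IntVal)
open Pool.Agent.Helper774.KStab (finrank_le_card finrank_span_image lattice_count layer_cake)
open MeasureTheory

variable {n : ℕ}

theorem meas_cl (ι : Type) [Fintype ι] (v : ℝ) :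
    MeasurableSet {s : ι → ℝ | (∀ i, 0 ≤ s i) ∧ ∑ i, s i ≤ v} := by
  have h1 : MeasurableSet {s : ι → ℝ | ∀ i, 0 ≤ s i} := by
    rw [show {s : ι → ℝ | ∀ i, 0 ≤ s i} = ⋂ i, {s | 0 ≤ s i} by ext; simp]
    exact MeasurableSet.iInter fun i => measurableSet_le measurable_const (measurable_pi_apply i)
  have h2 : MeasurableSet {s : ι → ℝ | ∑ i, s i ≤ v} :=
    measurableSet_le (Finset.measurable_sum _ fun i _ => measurable_pi_apply i) measurable_const
  exact h1.inter h2

theorem vol_cl (ι : Type) [Fintype ι] (v : ℝ) (hv : 0 ≤ v) :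
    volume {s : ι → ℝ | (∀ i, 0 ≤ s i) ∧ ∑ i, s i ≤ v} =
      ENNReal.ofReal (v ^ Fintype.card ι / (Fintype.card ι).factorial) := by
  classical
  have e : Fin (Fintype.card ι) ≃ ι := (Fintype.equivFin ι).symm
  have hmp := volume_measurePreserving_piCongrLeft (fun _ : ι => ℝ) e
  have hms := meas_cl ι v
  rw [← Pool.Agent.TH984.GBS.vol_Sc (Fintype.card ι) v hv,
    ← hmp.measure_preimage hms.nullMeasurableSet]
  congr 1
  ext x
  have happ : ∀ i, (MeasurableEquiv.piCongrLeft (fun _ : ι => ℝ) e) x (e i) = x i := by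
    intro i
    exact Equiv.piCongrLeft_apply_apply (P := fun _ : ι => ℝ) e x i
  have hsum : ∑ i, (MeasurableEquiv.piCongrLeft (fun _ : ι => ℝ) e) x i = ∑ i, x i := by
    rw [← Equiv.sum_comp e]
    exact Finset.sum_congr rfl fun i _ => happ i
  simp only [Set.mem_preimage, Set.mem_ofPred_eq, Pool.Agent.TH984.GBS.Sc]
  rw [hsum]
  constructor
  · rintro ⟨h1, h2⟩
    exact ⟨fun i => by rw [← happ i]; exact h1 (e i), h2⟩
  · rintro ⟨h1, h2⟩
    refine ⟨fun i => ?_, h2⟩
    obtain ⟨j, rfl⟩ := e.surjective i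
    rw [happ j]
    exact h1 j

theorem vol_cl' (ι : Type) (i1 i2 : Fintype ι) (v : ℝ) (hv : 0 ≤ v) :
    (@MeasureTheory.MeasureSpace.volume (ι → ℝ) (@MeasureTheory.MeasureSpace.pi ι i1 (fun _ => ℝ) _))
      {s : ι → ℝ | (∀ i, 0 ≤ s i) ∧ (@Finset.univ ι i2).sum (fun i => s i) ≤ v} =
      ENNReal.ofReal (v ^ (@Fintype.card ι i2) / (@Fintype.card ι i2).factorial) := by
  obtain rfl : i1 = i2 := Subsingleton.elim _ _
  exact vol_cl ι v hv

/-- product of two simplices -/
def reg (I : Finset (Fin n)) (A t : ℝ) : Set (Fin n → ℝ) :=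
  {z | (∀ i, 0 ≤ z i) ∧ ∑ i ∈ I, z i ≤ A ∧ ∑ i ∈ Iᶜ, z i ≤ t}

theorem vol_reg (I : Finset (Fin n)) (A t : ℝ) (hA : 0 ≤ A) (ht : 0 ≤ t) :
    volume (reg I A t) = ENNReal.ofReal (A ^ I.card / I.card.factorial) *
      ENNReal.ofReal (t ^ (n - I.card) / (n - I.card).factorial) := by
  classical
  have hmp := volume_preserving_piEquivPiSubtypeProd (fun _ : Fin n => ℝ) (fun i => i ∈ I)
  set S1 : Set ({i // i ∈ I} → ℝ) := {s | (∀ i, 0 ≤ s i) ∧ ∑ i, s i ≤ A} with hS1
  set S2 : Set ({i // ¬ i ∈ I} → ℝ) := {s | (∀ i, 0 ≤ s i) ∧ ∑ i, s i ≤ t} with hS2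
  have hm : MeasurableSet (S1 ×ˢ S2) := (meas_cl _ A).prod (meas_cl _ t)
  have hpre : reg I A t = (MeasurableEquiv.piEquivPiSubtypeProd (fun _ : Fin n => ℝ)
      (fun i => i ∈ I)) ⁻¹' (S1 ×ˢ S2) := by
    ext z
    simp only [reg, Set.mem_preimage, Set.mem_prod, Set.mem_ofPred_eq, hS1, hS2]
    have e1 : ∑ i : {i // i ∈ I}, (MeasurableEquiv.piEquivPiSubtypeProd (fun _ : Fin n => ℝ)
        (fun i => i ∈ I) z).1 i = ∑ i ∈ I, z i := by
      rw [← Finset.sum_coe_sort I z]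
      rfl
    have e2 : ∑ i : {i // ¬ i ∈ I}, (MeasurableEquiv.piEquivPiSubtypeProd (fun _ : Fin n => ℝ)
        (fun i => i ∈ I) z).2 i = ∑ i ∈ Iᶜ, z i := by
      exact (Finset.sum_subtype (Iᶜ) (p := fun i => ¬ i ∈ I) (by intro x; simp) z).symm
    rw [e1, e2]
    constructor
    · rintro ⟨h1, h2, h3⟩
      exact ⟨⟨fun i => h1 i, h2⟩, ⟨fun i => h1 i, h3⟩⟩
    · rintro ⟨⟨h1, h2⟩, ⟨h3, h4⟩⟩
      refine ⟨fun i => ?_, h2, h4⟩
      by_cases hi : i ∈ I
      · exact h1 ⟨i, hi⟩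
      · exact h3 ⟨i, hi⟩
  have hc1 : Fintype.card {i // i ∈ I} = I.card := Fintype.card_coe I
  have hc2 : Fintype.card {i // ¬ i ∈ I} = n - I.card := by
    rw [Fintype.card_subtype_compl, Fintype.card_fin, hc1]
  rw [hpre, hmp.measure_preimage hm.nullMeasurableSet, Measure.volume_eq_prod, Measure.prod_prod,
    ← hc2, ← hc1]
  congr 1
  · exact vol_cl' {i // i ∈ I} _ _ A hA
  · exact vol_cl' {i // ¬ i ∈ I} _ _ t ht

/-- the coordinates at the vertex `σ` -/
def zc (D : SData n) (σ : D.ι) (p : Fin n → ℝ) (j : Fin n) : ℝ :=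
  ∑ i, p i * ((D.R σ i j : ℤ) : ℝ) + 1

theorem vol_zc (D : SData n) (σ : D.ι) (S : Set (Fin n → ℝ)) :
    volume {p | zc D σ p ∈ S} = ENNReal.ofReal (1 / |((D.R σ).det : ℝ)|) * volume S := by
  set M : Matrix (Fin n) (Fin n) ℝ := ((D.R σ).map (fun z : ℤ => (z : ℝ))).transpose with hM
  have hdetM : M.det = ((D.R σ).det : ℝ) := by
    rw [hM, Matrix.det_transpose]
    exact (Int.cast_det (R := ℝ) (D.R σ)).symm
  have hdet : LinearMap.det (Matrix.toLin' M) ≠ 0 := by
    rw [LinearMap.det_toLin', hdetM]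
    exact_mod_cast D.det_ne σ
  have h1 : {p | zc D σ p ∈ S} =
      (Matrix.toLin' M) ⁻¹' ((fun q : Fin n → ℝ => q + fun _ => (1 : ℝ)) ⁻¹' S) := by
    ext p
    simp only [Set.mem_ofPred_eq, Set.mem_preimage]
    have h2 : zc D σ p = (Matrix.toLin' M) p + fun _ => (1 : ℝ) := by
      funext j
      rw [Matrix.toLin'_apply, Pi.add_apply]
      unfold zc
      congr 1
      simp only [Matrix.mulVec, dotProduct, hM, Matrix.transpose_apply, Matrix.map_apply]
      exact Finset.sum_congr rfl fun i _ => mul_comm _ _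
    rw [h2]
  rw [h1, MeasureTheory.Measure.addHaar_preimage_linearMap _ hdet, LinearMap.det_toLin', hdetM,
    measure_preimage_add_right]
  rw [abs_inv, one_div]

/-- `∑_{j ∉ I} z_j` as an affine function. -/
theorem zc_sum (D : SData n) (σ : D.ι) (J : Finset (Fin n)) (p : Fin n → ℝ) :
    ∑ j ∈ J, zc D σ p j = ∑ i, (∑ j ∈ J, ((D.R σ i j : ℤ) : ℝ)) * p i + (J.card : ℝ) := by
  unfold zc
  rw [Finset.sum_add_distrib, Finset.sum_const, nsmul_eq_mul, mul_one, Finset.sum_comm]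
  congr 1
  refine Finset.sum_congr rfl fun i _ => ?_
  rw [Finset.sum_mul]
  exact Finset.sum_congr rfl fun j _ => mul_comm _ _

/-- The volume bound at a vertex. -/
theorem vol_bound (D : SData n) (hbar : ∀ i, ∫ p in D.P, p i = 0) (σ : D.ι) (I : Finset (Fin n))
    (hIn : I.card < n) (hI : ∀ p ∈ D.P, ∑ j ∈ I, zc D σ p j ≤ (I.card : ℝ) + 1) :
    volume.real D.P ≤ gv I.card * gv (n - I.card) / |((D.R σ).det : ℝ)| := by
  have hb := P_bounded D
  have hVt : volume D.P ≠ ⊤ := hb.measure_lt_top.ne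
  set V := volume.real D.P with hV
  set a := I.card with ha
  set b := n - I.card with hbdef
  have hb1 : 1 ≤ b := by omega
  have hcc : (Iᶜ).card = b := by rw [Finset.card_compl, Fintype.card_fin]
  have hd : (0 : ℝ) < |((D.R σ).det : ℝ)| := by
    rw [abs_pos]
    exact_mod_cast D.det_ne σ
  by_contra hcon
  push Not at hcon
  have hpos : ∀ p ∈ D.P, ∀ j, 0 ≤ zc D σ p j := by
    intro p hp j
    have := hp σ j
    unfold zc
    linarith
  set β : Fin n → ℝ := fun i => ∑ j ∈ Iᶜ, ((D.R σ i j : ℤ) : ℝ) with hβ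
  have hh : ∀ p, ∑ j ∈ Iᶜ, zc D σ p j = ∑ i, β i * p i + (b : ℝ) := by
    intro p
    rw [zc_sum, hcc]
  have hlc := layer_cake D.P hb D.P_closed β (b : ℝ) (fun p hp => by
    rw [← hh]
    exact Finset.sum_nonneg fun j _ => hpos p hp j)
  have hz : ∑ i, β i * (∫ p in D.P, p i) = 0 :=
    Finset.sum_eq_zero fun i _ => by rw [hbar i, mul_zero]
  rw [hz, zero_add] at hlc
  -- constant
  set c : ℝ := ((a : ℝ) + 1) ^ a / a.factorial / b.factorial / |((D.R σ).det : ℝ)| with hc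
  have hc0 : 0 ≤ c := by positivity
  have hcon' : c * ((b : ℝ) + 1) ^ b < V := by
    refine lt_of_eq_of_lt ?_ hcon
    rw [hc]
    unfold gv
    field_simp
  have hlow : ∀ t : ℝ, 0 ≤ t → ENNReal.ofReal (V - c * t ^ b) ≤
      volume (D.P ∩ {p | t ≤ ∑ i, β i * p i + (b : ℝ)}) := by
    intro t ht
    have h1 : D.P ⊆ (D.P ∩ {p | t ≤ ∑ i, β i * p i + (b : ℝ)}) ∪
        {p | zc D σ p ∈ reg I ((a : ℝ) + 1) t} := by
      intro p hp
      by_cases hpt : t ≤ ∑ i, β i * p i + (b : ℝ)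
      · exact Or.inl ⟨hp, hpt⟩
      · right
        refine ⟨hpos p hp, hI p hp, ?_⟩
        rw [hh]
        exact (not_le.1 hpt).le
    have h2 := (measure_mono (μ := (volume : Measure (Fin n → ℝ))) h1).trans (measure_union_le _ _)
    rw [vol_zc, vol_reg I _ t (by positivity) ht, ← ha, ← hbdef,
      ← ENNReal.ofReal_mul (by positivity), ← ENNReal.ofReal_mul (by positivity)] at h2
    have h3 : 1 / |((D.R σ).det : ℝ)| * (((a : ℝ) + 1) ^ a / a.factorial * (t ^ b / b.factorial)) =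
        c * t ^ b := by
      rw [hc]
      field_simp
    rw [h3] at h2
    rw [ENNReal.ofReal_sub _ (by positivity)]
    have h4 : ENNReal.ofReal V = volume D.P := ENNReal.ofReal_toReal hVt
    rw [h4]
    exact tsub_le_iff_right.2 h2
  have hint : ∫⁻ t in Set.Ioo (0 : ℝ) ((b : ℝ) + 1), ENNReal.ofReal (V - c * t ^ b) ≤
      ENNReal.ofReal ((b : ℝ) * V) := by
    rw [← hlc]
    refine (setLIntegral_mono' measurableSet_Ioo fun t ht => hlow t ht.1.le).trans ?_
    exact lintegral_mono_set fun t ht => ht.1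
  have hcont : Continuous fun t : ℝ => V - c * t ^ b := by fun_prop
  have hIoo : IntegrableOn (fun t : ℝ => V - c * t ^ b) (Set.Ioo 0 ((b : ℝ) + 1)) volume :=
    (hcont.continuousOn.integrableOn_Icc (a := (0 : ℝ)) (b := (b : ℝ) + 1)).mono_set
      Set.Ioo_subset_Icc_self
  rw [← ofReal_integral_eq_lintegral_ofReal hIoo] at hint
  · rw [← integral_Ioc_eq_integral_Ioo, ← intervalIntegral.integral_of_le (by positivity),
      intervalIntegral.integral_sub (by simp) (by
        apply Continuous.intervalIntegrable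
        fun_prop), intervalIntegral.integral_const, intervalIntegral.integral_const_mul,
      integral_pow] at hint
    have hV0 : 0 < V := lt_of_le_of_lt (by positivity) hcon'
    rw [ENNReal.ofReal_le_ofReal_iff (by positivity)] at hint
    have h5 : ((b : ℝ) + 1 - 0) • V - c * ((((b : ℝ) + 1) ^ (b + 1) - 0 ^ (b + 1)) / ((b : ℝ) + 1)) =
        ((b : ℝ) + 1) * V - c * ((b : ℝ) + 1) ^ b := by
      rw [smul_eq_mul, sub_zero, zero_pow (by omega), sub_zero, pow_succ]
      congr 2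
      field_simp
    rw [h5] at hint
    linarith
  · refine (ae_restrict_iff' measurableSet_Ioo).2 (Filter.Eventually.of_forall fun t ht => ?_)
    have h6 : t ^ b ≤ ((b : ℝ) + 1) ^ b := pow_le_pow_left₀ ht.1.le ht.2.le b
    have h7 := mul_le_mul_of_nonneg_left h6 hc0
    show 0 ≤ V - c * t ^ b
    linarith

end Pool.Agent.R891.TG
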