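import Pool.Agent.R891.TG.Pn
import Pool.Agent.R891.TG.Vol

/-!
The anticanonical volume of projective space is at least `(n+1)^n`.
-/

open scoped ENNReal

noncomputable section

namespace Pool.Agent.R891.TG

open Pool.Agent.Helper774.KSing
open Pool.Agent.Helper774.KStab (TorusField IntVal)
open Pool.Agent.Helper774.KStab (finrank_span_image lattice_count)
open MeasureTheory

variable {K : Type} [Field K] [Algebra ℂ K]

/-- the local ring as a subalgebra -/
def locSub (R : Subalgebra ℂ K) (p : Ideal R) (hp : p.IsPrime) : Subalgebra ℂ K where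
  carrier := locRing R p
  mul_mem' := by
    rintro x y ⟨a, s, hs, h⟩ ⟨b, t, ht, h'⟩
    refine ⟨a * b, s * t, fun hst => ?_, ?_⟩
    · rcases hp.mem_or_mem hst with h | h
      · exact hs h
      · exact ht h
    · push_cast
      rw [← h, ← h']; ring
  add_mem' := by
    rintro x y ⟨a, s, hs, h⟩ ⟨b, t, ht, h'⟩
    refine ⟨a * t + b * s, s * t, fun hst => ?_, ?_⟩
    · rcases hp.mem_or_mem hst with h | h
      · exact hs h
      · exact ht h
    · push_cast
      rw [← h, ← h']; ring
  algebraMap_mem' := by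
    intro c
    refine ⟨algebraMap ℂ R c, 1, (Ideal.ne_top_iff_one p).1 hp.ne_top, ?_⟩
    rw [OneMemClass.coe_one, mul_one]
    rfl

theorem mem_locSub {R : Subalgebra ℂ K} {p : Ideal R} {hp : p.IsPrime} {z : K} :
    z ∈ locSub R p hp ↔ z ∈ locRing R p := Iff.rfl

theorem mem_of_loc (R : Subalgebra ℂ K) (f : K)
    (h : ∀ p : Ideal R, p.IsPrime → f ∈ locRing R p) : f ∈ R := by
  let I : Ideal R :=
    { carrier := {s | f * (s : K) ∈ R}
      add_mem' := by
        intro a b ha hb
        simp only [Set.mem_ofPred_eq] at ha hb ⊢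
        push_cast
        rw [mul_add]
        exact R.add_mem ha hb
      zero_mem' := by
        simp only [Set.mem_ofPred_eq]
        push_cast
        rw [mul_zero]
        exact R.zero_mem
      smul_mem' := by
        intro c a ha
        simp only [Set.mem_ofPred_eq, smul_eq_mul] at ha ⊢
        push_cast
        have e : f * ((c : K) * (a : K)) = (c : K) * (f * (a : K)) := by ring
        rw [e]
        exact R.mul_mem c.2 ha }
  have hI : ∀ s : R, s ∈ I ↔ f * (s : K) ∈ R := fun s => Iff.rfl
  by_cases htop : I = ⊤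
  · have h1 : (1 : R) ∈ I := by rw [htop]; exact Submodule.mem_top
    rw [hI] at h1
    rwa [OneMemClass.coe_one, mul_one] at h1
  · exfalso
    obtain ⟨p, hp, hIp⟩ := Ideal.exists_le_maximal I htop
    obtain ⟨a, s, hs, hfs⟩ := h p hp.isPrime
    apply hs
    apply hIp
    rw [hI, hfs]
    exact a.2

/-- derivations of an element of `A` are `A`-combinations of derivations of the generators -/
def DerGen {m : ℕ} (A : Subalgebra ℂ K) (z : Fin m → K) (g : K) : Prop :=
  ∃ c : Fin m → K, (∀ k, c k ∈ A) ∧ ∀ D : Derivation ℂ K K, D g = ∑ k, c k * D (z k)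

theorem derGen_adjoin {m : ℕ} (z : Fin m → K) (A : Subalgebra ℂ K)
    (hA : Algebra.adjoin ℂ (Set.range z) ≤ A) (g : K) (hg : g ∈ Algebra.adjoin ℂ (Set.range z)) :
    DerGen A z g := by
  induction hg using Algebra.adjoin_induction with
  | mem x hx =>
    obtain ⟨j, rfl⟩ := hx
    refine ⟨Pi.single j 1, fun k => ?_, fun D => ?_⟩
    · rw [Pi.single_apply]
      split_ifs
      · exact A.one_mem
      · exact A.zero_mem
    · rw [Finset.sum_eq_single j]
      · rw [Pi.single_eq_same, one_mul]
      · intro k _ hk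
        rw [Pi.single_eq_of_ne hk, zero_mul]
      · intro h
        exact absurd (Finset.mem_univ j) h
  | algebraMap c =>
    refine ⟨0, fun k => A.zero_mem, fun D => ?_⟩
    rw [D.map_algebraMap]
    simp
  | add x y _ _ hx hy =>
    obtain ⟨c, hc, h1⟩ := hx
    obtain ⟨d, hd, h2⟩ := hy
    refine ⟨c + d, fun k => A.add_mem (hc k) (hd k), fun D => ?_⟩
    rw [map_add, h1, h2, ← Finset.sum_add_distrib]
    exact Finset.sum_congr rfl fun k _ => by rw [Pi.add_apply]; ring
  | mul x y hx' hy' hx hy =>
    obtain ⟨c, hc, h1⟩ := hx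
    obtain ⟨d, hd, h2⟩ := hy
    refine ⟨fun k => x * d k + y * c k, fun k => A.add_mem (A.mul_mem (hA hx') (hd k))
      (A.mul_mem (hA hy') (hc k)), fun D => ?_⟩
    rw [D.leibniz, h1, h2, smul_eq_mul, smul_eq_mul, Finset.mul_sum, Finset.mul_sum,
      ← Finset.sum_add_distrib]
    exact Finset.sum_congr rfl fun k _ => by ring

theorem derGen_loc {m : ℕ} (z : Fin m → K) (p : Ideal (Algebra.adjoin ℂ (Set.range z)))
    (hp : p.IsPrime) (g : K) (hg : g ∈ locRing (Algebra.adjoin ℂ (Set.range z)) p) :
    DerGen (locSub _ p hp) z g := by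
  have hle : Algebra.adjoin ℂ (Set.range z) ≤ locSub _ p hp := vr_sub_loc _ p hp
  obtain ⟨a, s, hs, h⟩ := hg
  obtain ⟨c, hc, h1⟩ := derGen_adjoin z (locSub _ p hp) hle a a.2
  obtain ⟨d, hd, h2⟩ := derGen_adjoin z (locSub _ p hp) hle s s.2
  have hs0 : (s : K) ≠ 0 := by
    intro h0
    apply hs
    have : s = 0 := Subtype.ext h0
    rw [this]
    exact p.zero_mem
  have hsinv : (s : K)⁻¹ ∈ locSub _ p hp := by
    refine ⟨1, s, hs, ?_⟩
    rw [inv_mul_cancel₀ hs0]
    rfl
  have hg : g ∈ locSub _ p hp := ⟨a, s, hs, h⟩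
  refine ⟨fun k => (c k - g * d k) * (s : K)⁻¹, fun k => (locSub _ p hp).mul_mem
    ((locSub _ p hp).sub_mem (hc k) ((locSub _ p hp).mul_mem hg (hd k))) hsinv, fun D => ?_⟩
  have h3 : D (a : K) = g * D (s : K) + s * D g := by
    rw [← h, D.leibniz, smul_eq_mul, smul_eq_mul]
  have h4 : D g = (D (a : K) - g * D (s : K)) * (s : K)⁻¹ := by
    rw [h3]
    field_simp
    ring
  rw [h4, h1, h2, Finset.mul_sum, ← Finset.sum_sub_distrib, Finset.sum_mul]
  exact Finset.sum_congr rfl fun k _ => by ring

/-- the homogeneous coordinates -/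
def hx {n : ℕ} (y : Fin n → K) : Fin (n + 1) → K := Fin.cons 1 y

/-- The Jacobian determinant of the coordinates of the chart `i`. -/
theorem chart_jac {n : ℕ} (y : Fin n → K) (D : Fin n → Derivation ℂ K K) (i : Fin (n + 1))
    (hi : hx y i ≠ 0) :
    ∃ ε : K, (ε = 1 ∨ ε = -1) ∧
      Matrix.det (Matrix.of fun a l : Fin n => D a (hx y (i.succAbove l) / hx y i)) =
        ε * ((hx y i)⁻¹ ^ (n + 1) * Matrix.det (Matrix.of fun a l : Fin n => D a (y l))) := by
  set M : Matrix (Fin (n + 1)) (Fin (n + 1)) K :=
    Matrix.of (Fin.cons (hx y) (fun a k => D a (hx y k))) with hM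
  set M' : Matrix (Fin (n + 1)) (Fin (n + 1)) K :=
    Matrix.of (Fin.cons (fun k => hx y k / hx y i) (fun a k => D a (hx y k / hx y i))) with hM'
  set L : Matrix (Fin (n + 1)) (Fin (n + 1)) K :=
    Matrix.of (Fin.cons (Pi.single 0 (hx y i)⁻¹)
      (fun a => Fin.cons (-(D a (hx y i)) * (hx y i)⁻¹ ^ 2) (Pi.single a (hx y i)⁻¹))) with hL
  have hLM : M' = L * M := by
    ext a k
    rw [Matrix.mul_apply, Fin.sum_univ_succ]
    refine Fin.cases ?_ (fun a => ?_) a
    · simp only [hM', hL, hM, Matrix.of_apply, Fin.cons_zero, Fin.cons_succ, Pi.single_eq_same]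
      have : ∀ x : Fin n, (Pi.single 0 (hx y i)⁻¹ : Fin (n + 1) → K) x.succ = 0 := fun x =>
        Pi.single_eq_of_ne (Fin.succ_ne_zero x) _
      simp_rw [this, zero_mul]
      rw [Finset.sum_const_zero, add_zero, div_eq_mul_inv, mul_comm]
    · simp only [hM', hL, hM, Matrix.of_apply, Fin.cons_zero, Fin.cons_succ]
      rw [Finset.sum_eq_single a]
      · rw [Pi.single_eq_same, div_eq_mul_inv, (D a).leibniz, (D a).leibniz_inv, smul_eq_mul,
          smul_eq_mul, smul_eq_mul]
        ring
      · intro b _ hb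
        rw [Pi.single_eq_of_ne hb, zero_mul]
      · intro h
        exact absurd (Finset.mem_univ a) h
  have hdetL : L.det = (hx y i)⁻¹ ^ (n + 1) := by
    rw [Matrix.det_of_isLowerTriangular L (by
      intro a b hab
      have hab' : a < b := hab
      revert hab'
      refine Fin.cases ?_ (fun a => ?_) a
      · intro hab'
        simp only [hL, Matrix.of_apply, Fin.cons_zero]
        exact Pi.single_eq_of_ne (Fin.pos_iff_ne_zero.1 hab') _
      · refine Fin.cases ?_ (fun b => ?_) b
        · intro hab'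
          exact absurd hab' (Fin.not_lt_zero _)
        · intro hab'
          simp only [hL, Matrix.of_apply, Fin.cons_succ]
          rw [Fin.succ_lt_succ_iff] at hab'
          exact Pi.single_eq_of_ne (ne_of_gt hab') _)]
    rw [Fin.prod_univ_succ]
    simp only [hL, Matrix.of_apply, Fin.cons_zero, Fin.cons_succ, Pi.single_eq_same,
      Finset.prod_const, Finset.card_univ, Fintype.card_fin]
    rw [pow_succ, mul_comm]
  have hdetM : M.det = Matrix.det (Matrix.of fun a l : Fin n => D a (y l)) := by
    rw [Matrix.det_succ_column_zero, Fin.sum_univ_succ, Finset.sum_eq_zero]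
    · simp only [hM, Matrix.of_apply, Fin.cons_zero, Fin.val_zero, pow_zero, one_mul, add_zero]
      have h1 : hx y 0 = 1 := rfl
      rw [h1, one_mul]
      congr 1
    · intro a _
      have h1 : M a.succ 0 = 0 := by
        simp only [hM, Matrix.of_apply, Fin.cons_succ]
        show D a (1 : K) = 0
        exact (D a).map_one_eq_zero
      rw [h1, mul_zero, zero_mul]
  have hdetM' : M'.det = (-1) ^ (i : ℕ) *
      Matrix.det (Matrix.of fun a l : Fin n => D a (hx y (i.succAbove l) / hx y i)) := by
    rw [Matrix.det_succ_column M' i, Fin.sum_univ_succ, Finset.sum_eq_zero]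
    · simp only [hM', Matrix.of_apply, Fin.cons_zero, Fin.val_zero, zero_add, add_zero]
      rw [div_self hi, mul_one]
      congr 1
    · intro a _
      have h1 : M' a.succ i = 0 := by
        simp only [hM', Matrix.of_apply, Fin.cons_succ]
        rw [div_self hi]
        exact (D a).map_one_eq_zero
      rw [h1, mul_zero, zero_mul]
  have hfin : (-1) ^ (i : ℕ) *
      Matrix.det (Matrix.of fun a l : Fin n => D a (hx y (i.succAbove l) / hx y i)) =
      (hx y i)⁻¹ ^ (n + 1) * Matrix.det (Matrix.of fun a l : Fin n => D a (y l)) := by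
    rw [← hdetM', hLM, Matrix.det_mul, hdetL, hdetM]
  rcases neg_one_pow_eq_or K (i : ℕ) with h | h
  · refine ⟨1, Or.inl rfl, ?_⟩
    rw [h, one_mul] at hfin
    rw [one_mul]
    exact hfin
  · refine ⟨-1, Or.inr rfl, ?_⟩
    rw [h] at hfin
    rw [← hfin]
    ring

/-- forms at a point of projective space -/
theorem forms_point {n : ℕ} (y : Fin n → K) (D : Fin n → Derivation ℂ K K) (i : Fin (n + 1))
    (hi : hx y i ≠ 0) (p : Ideal (projChart y i)) (hp : p.IsPrime) (g : Fin n → K)
    (hg : ∀ j, g j ∈ locRing (projChart y i) p) :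
    ∃ α ∈ locSub (projChart y i) p hp, Matrix.det (Matrix.of fun a j => D a (g j)) =
      α * ((hx y i)⁻¹ ^ (n + 1) * Matrix.det (Matrix.of fun a l : Fin n => D a (y l))) := by
  have h1 : ∀ j, DerGen (locSub (projChart y i) p hp) (fun k : Fin (n + 1) => hx y k / hx y i) (g j) :=
    fun j => derGen_loc (fun k : Fin (n + 1) => hx y k / hx y i) p hp (g j) (hg j)
  choose c hc hD using h1
  have hmat : (Matrix.of fun a j => D a (g j)) =
      (Matrix.of fun a l : Fin n => D a (hx y (i.succAbove l) / hx y i)) *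
        (Matrix.of fun l j => c j (i.succAbove l)) := by
    ext a j
    rw [Matrix.mul_apply, Matrix.of_apply, hD j (D a), Fin.sum_univ_succAbove _ i]
    have h2 : D a (hx y i / hx y i) = 0 := by
      rw [div_self hi]
      exact (D a).map_one_eq_zero
    rw [h2, mul_zero, zero_add]
    exact Finset.sum_congr rfl fun l _ => by rw [Matrix.of_apply, Matrix.of_apply, mul_comm]
  obtain ⟨ε, hε, he⟩ := chart_jac y D i hi
  have hdet : Matrix.det (Matrix.of fun l j => c j (i.succAbove l)) ∈ locSub (projChart y i) p hp := by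
    have h3 : (Matrix.of fun l j => c j (i.succAbove l)) =
        ((Matrix.of fun l j => (⟨c j (i.succAbove l), hc j _⟩ : locSub (projChart y i) p hp)) :
          Matrix (Fin n) (Fin n) (locSub (projChart y i) p hp)).map
            (algebraMap (locSub (projChart y i) p hp) K) := by
      ext l j
      rfl
    rw [h3]
    have h4 := (RingHom.map_det (algebraMap (locSub (projChart y i) p hp) K)
      ((Matrix.of fun l j => (⟨c j (i.succAbove l), hc j _⟩ : locSub (projChart y i) p hp)) :
          Matrix (Fin n) (Fin n) (locSub (projChart y i) p hp)))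
    have h5 : (((Matrix.of fun l j => (⟨c j (i.succAbove l), hc j _⟩ : locSub (projChart y i) p hp)) :
          Matrix (Fin n) (Fin n) (locSub (projChart y i) p hp)).map
            (algebraMap (locSub (projChart y i) p hp) K)).det =
        algebraMap (locSub (projChart y i) p hp) K (Matrix.det (Matrix.of fun l j =>
          (⟨c j (i.succAbove l), hc j _⟩ : locSub (projChart y i) p hp))) := h4.symm
    rw [h5]
    exact Subtype.mem _
  refine ⟨ε * Matrix.det (Matrix.of fun l j => c j (i.succAbove l)), ?_, ?_⟩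
  · rcases hε with h | h
    · rw [h, one_mul]
      exact hdet
    · rw [h, neg_one_mul]
      exact (locSub (projChart y i) p hp).neg_mem hdet
  · rw [hmat, Matrix.det_mul, he]
    ring

end Pool.Agent.R891.TG
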