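import Pool.Agent.R891.TG.PnVol

/-!
The anticanonical volume of projective space is at least `(n+1)^n` (second part).
-/

open scoped ENNReal

noncomputable section

namespace Pool.Agent.R891.TG

open Pool.Agent.Helper774.KSing
open Pool.Agent.Helper774.KStab (TorusField IntVal)
open Pool.Agent.Helper774.KStab (finrank_span_image lattice_count deriv_sum_apply)
open MeasureTheory

variable {K : Type} [Field K] [Algebra ℂ K]

/-- the monomial `y^u` -/
def mon {n : ℕ} (y : Fin n → K) (u : Fin n →₀ ℕ) : K := ∏ i, y i ^ u i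

theorem mon_li {n : ℕ} (y : Fin n → K) (hy : AlgebraicIndependent ℂ y) (c : K) (hc : c ≠ 0) :
    LinearIndependent ℂ (fun u : Fin n →₀ ℕ => mon y u * c) := by
  have h1 : LinearIndependent ℂ (fun u : Fin n →₀ ℕ => mon y u) := by
    have h2 := (MvPolynomial.basisMonomials (Fin n) ℂ).linearIndependent
    have h3 := h2.map' (MvPolynomial.aeval (R := ℂ) y).toLinearMap
      (LinearMap.ker_eq_bot.2 hy)
    have e : (fun u : Fin n →₀ ℕ => mon y u) = (MvPolynomial.aeval (R := ℂ) y).toLinearMap ∘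
        (MvPolynomial.basisMonomials (Fin n) ℂ) := by
      funext u
      simp only [Function.comp_apply, MvPolynomial.coe_basisMonomials, AlgHom.toLinearMap_apply,
        MvPolynomial.aeval_monomial, map_one, one_mul, mon]
      rw [Finsupp.prod_fintype _ _ fun i => pow_zero _]
    rw [e]
    exact h3
  have h4 := h1.map' (LinearMap.mulRight ℂ c) (LinearMap.ker_eq_bot.2 fun a b hab => by
    simp only [LinearMap.mulRight_apply] at hab
    exact mul_right_cancel₀ hc hab)
  exact h4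

theorem hx_ne {n : ℕ} (y : Fin n → K) (hy : AlgebraicIndependent ℂ y) (i : Fin (n + 1)) :
    hx y i ≠ 0 := by
  unfold hx
  refine Fin.cases ?_ (fun i => ?_) i
  · rw [Fin.cons_zero]
    exact one_ne_zero
  · rw [Fin.cons_succ]
    exact hy.ne_zero i

/-- monomials of bounded degree in the chart `i` -/
theorem mon_div {n : ℕ} (y : Fin n → K) (i : Fin (n + 1)) (u : Fin n →₀ ℕ) (N : ℕ)
    (hu : ∑ j, u j ≤ N) : mon y u * (hx y i)⁻¹ ^ N ∈ projChart y i := by
  obtain ⟨k, hk⟩ := Nat.exists_eq_add_of_le hu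
  have h1 : mon y u * (hx y i)⁻¹ ^ N =
      (∏ j, (hx y j.succ / hx y i) ^ u j) * (hx y 0 / hx y i) ^ k := by
    have h2 : ∀ j : Fin n, hx y j.succ = y j := fun j => rfl
    have h3 : hx y 0 = 1 := rfl
    simp_rw [h2, h3, div_eq_mul_inv, mul_pow, Finset.prod_mul_distrib, one_pow, one_mul]
    rw [hk, pow_add, Finset.prod_pow_eq_pow_sum]
    unfold mon
    ring
  rw [h1]
  refine (projChart y i).mul_mem ((projChart y i).prod_mem fun j _ => ?_) ?_
  · exact (projChart y i).pow_mem (Algebra.subset_adjoin ⟨j.succ, rfl⟩) _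
  · exact (projChart y i).pow_mem (Algebra.subset_adjoin ⟨0, rfl⟩) _

theorem jac_ne (X : Variety) (y : Fin X.dim → X.K)
    (hpt : X.points = {A | ∃ (i : Fin (X.dim + 1)) (p : Ideal (projChart y i)), p.IsPrime ∧
      A = locRing (projChart y i) p}) : X.jac y ≠ 0 := by
  intro hJ
  unfold Variety.jac at hJ
  obtain ⟨c, hc0, hc⟩ := Matrix.exists_vecMul_eq_zero_iff.2 hJ
  set D : Derivation ℂ X.K X.K := ∑ a, c a • X.der a with hD
  have hDy : ∀ j, D (y j) = 0 := by
    intro j
    have h1 := congrFun hc j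
    simp only [Matrix.vecMul, dotProduct, Matrix.of_apply, Pi.zero_apply] at h1
    rw [hD, ← h1, deriv_sum_apply]
    exact Finset.sum_congr rfl fun a _ => rfl
  have hDx : ∀ j : Fin (X.dim + 1), D (hx y j) = 0 := by
    intro j
    refine Fin.cases ?_ (fun j => ?_) j
    · exact D.map_one_eq_zero
    · exact hDy j
  have hDxx : ∀ i j : Fin (X.dim + 1), D (hx y j / hx y i) = 0 := by
    intro i j
    rw [div_eq_mul_inv, D.leibniz, D.leibniz_inv, hDx, hDx]
    simp
  -- generic point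
  obtain ⟨i0, -⟩ := X.complete ⊤ (fun c => ValuationSubring.mem_top _)
  have hgen : (Set.univ : Set X.K) ∈ X.points := by
    refine ⟨i0, ⊥, Ideal.isPrime_bot, ?_⟩
    symm
    rw [Set.eq_univ_iff_forall]
    intro z
    have := X.frac i0
    obtain ⟨a, b, hb, hab⟩ := IsFractionRing.div_surjective (A := X.chart i0) z
    refine ⟨a, b, ?_, ?_⟩
    · intro h
      exact nonZeroDivisors.ne_zero hb ((Submodule.mem_bot _).1 h)
    · have hb0 : ((b : X.chart i0) : X.K) ≠ 0 := by
        intro h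
        exact nonZeroDivisors.ne_zero hb (Subtype.ext h)
      rw [← hab]
      exact div_mul_cancel₀ _ hb0
  rw [hpt] at hgen
  obtain ⟨i, p, hp, hA⟩ := hgen
  have hDK : ∀ z : X.K, D z = 0 := by
    intro z
    have hz : z ∈ locRing (projChart y i) p := by rw [← hA]; exact Set.mem_univ z
    obtain ⟨c', -, h1⟩ := derGen_loc (fun k : Fin (X.dim + 1) => hx y k / hx y i) p hp z hz
    rw [h1 D]
    exact Finset.sum_eq_zero fun k _ => by rw [hDxx, mul_zero]
  have hD0 : D = 0 := Derivation.ext hDK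
  apply hc0
  have h2 := (Fintype.linearIndependent_iff.1 X.der.linearIndependent) c (by rw [← hD]; exact hD0)
  exact funext h2

theorem proj_section (X : Variety) (y : Fin X.dim → X.K) (hy : AlgebraicIndependent ℂ y)
    (hpt : X.points = {A | ∃ (i : Fin (X.dim + 1)) (p : Ideal (projChart y i)), p.IsPrime ∧
      A = locRing (projChart y i) p}) (m : ℕ) (u : Fin X.dim →₀ ℕ)
    (hu : ∑ j, u j ≤ m * (X.dim + 1)) :
    mon y u * (X.jac y)⁻¹ ^ m ∈ X.antican m := by
  intro c a ha
  have hJ := jac_ne X y hpt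
  apply mem_of_loc
  intro p hp
  have h1 : locRing (X.chart c) p ∈ X.points := ⟨c, p, hp, rfl⟩
  rw [hpt] at h1
  obtain ⟨i, q, hq, hA⟩ := h1
  rw [hA]
  have hi := hx_ne y hy i
  have h2 : ∀ k, ∃ α ∈ locSub (projChart y i) q hq, a k =
      α * ((hx y i)⁻¹ ^ (X.dim + 1) * X.jac y) := by
    intro k
    obtain ⟨g, hg, hgk⟩ := ha k
    have hg' : ∀ j, g j ∈ locRing (projChart y i) q := by
      intro j
      rw [← hA]
      exact vr_sub_loc (X.chart c) p hp (hg j)
    obtain ⟨α, hα, he⟩ := forms_point y (fun a => X.der a) i hi q hq g hg'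
    exact ⟨α, hα, hgk.trans he⟩
  choose α hα hak using h2
  have h3 : mon y u * (X.jac y)⁻¹ ^ m * ∏ k, a k =
      (∏ k, α k) * (mon y u * (hx y i)⁻¹ ^ (m * (X.dim + 1))) := by
    simp_rw [hak]
    rw [Finset.prod_mul_distrib, Finset.prod_const, Finset.card_univ, Fintype.card_fin, mul_pow,
      ← pow_mul, mul_comm (X.dim + 1) m]
    have h4 : (X.jac y)⁻¹ ^ m * (X.jac y) ^ m = 1 := by
      rw [← mul_pow, inv_mul_cancel₀ hJ, one_pow]
    calc mon y u * (X.jac y)⁻¹ ^ m * ((∏ i, α i) * ((hx y i)⁻¹ ^ (m * (X.dim + 1)) * X.jac y ^ m))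
        = (∏ i, α i) * (mon y u * (hx y i)⁻¹ ^ (m * (X.dim + 1))) *
          ((X.jac y)⁻¹ ^ m * (X.jac y) ^ m) := by ring
      _ = _ := by rw [h4, mul_one]
  rw [h3]
  have h5 : (∏ k, α k) ∈ locSub (projChart y i) q hq :=
    Subalgebra.prod_mem _ fun k _ => hα k
  have h6 : mon y u * (hx y i)⁻¹ ^ (m * (X.dim + 1)) ∈ locSub (projChart y i) q hq :=
    vr_sub_loc _ q hq (mon_div y i u _ hu)
  exact (locSub (projChart y i) q hq).mul_mem h5 h6

theorem simplex_count (n : ℕ) (m : ℕ) (hm : 1 ≤ m) :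
    {u : Fin n → ℤ | (fun i => (u i : ℝ) / (m : ℝ)) ∈
      {s : Fin n → ℝ | (∀ i, 0 ≤ s i) ∧ ∑ i, s i ≤ (n : ℝ) + 1}} =
    (fun u : Fin n →₀ ℕ => fun i => ((u i : ℕ) : ℤ)) ''
      {u : Fin n →₀ ℕ | ∑ j, u j ≤ m * (n + 1)} := by
  have hm0 : (0 : ℝ) < m := by exact_mod_cast hm
  ext u
  simp only [Set.mem_ofPred_eq, Set.mem_image]
  rw [← Finset.sum_div, div_le_iff₀ hm0]
  constructor
  · rintro ⟨h1, h2⟩
    have h3 : ∀ i, 0 ≤ u i := by
      intro i
      have h4 := h1 i
      rw [le_div_iff₀ hm0, zero_mul] at h4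
      exact_mod_cast h4
    refine ⟨Finsupp.equivFunOnFinite.symm fun i => (u i).toNat, ?_, ?_⟩
    · have h5 : ((∑ i, u i : ℤ) : ℝ) ≤ (((m * (n + 1) : ℕ) : ℤ) : ℝ) := by
        push_cast
        linarith
      have h6 : ∑ i, u i ≤ ((m * (n + 1) : ℕ) : ℤ) := by exact_mod_cast h5
      have h7 : ((∑ j, (u j).toNat : ℕ) : ℤ) = ∑ i, u i := by
        push_cast
        exact Finset.sum_congr rfl fun i _ => Int.toNat_of_nonneg (h3 i)
      show ∑ j, (u j).toNat ≤ m * (n + 1)
      rw [← h7] at h6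
      exact_mod_cast h6
    · funext i
      show (((u i).toNat : ℕ) : ℤ) = u i
      exact Int.toNat_of_nonneg (h3 i)
  · rintro ⟨w, hw, rfl⟩
    refine ⟨fun i => by positivity, ?_⟩
    have h1 : ((∑ j, w j : ℕ) : ℝ) ≤ ((m * (n + 1) : ℕ) : ℝ) := by exact_mod_cast hw
    push_cast at h1 ⊢
    linarith

/-- The anticanonical volume of projective space is at least `(n+1)^n`. -/
theorem proj_vol (X : Variety) (hX : IsProj X)
    (hfin : ∀ m, 1 ≤ m → FiniteDimensional ℂ (X.antican m)) :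
    ((X.dim + 1 : ℕ) : ℝ≥0∞) ^ X.dim ≤ X.vol := by
  obtain ⟨y, hy, hpt⟩ := hX
  have hJ := jac_ne X y hpt
  set P : Set (Fin X.dim → ℝ) := {s : Fin X.dim → ℝ | (∀ i, 0 ≤ s i) ∧ ∑ i, s i ≤ (X.dim : ℝ) + 1} with hP
  have hbdd : Bornology.IsBounded P := by
    rw [isBounded_iff_forall_norm_le]
    refine ⟨(X.dim : ℝ) + 1, fun p hp => ?_⟩
    rw [pi_norm_le_iff_of_nonneg (by positivity)]
    intro i
    rw [Real.norm_eq_abs, abs_of_nonneg (hp.1 i)]
    exact (Finset.single_le_sum (fun j _ => hp.1 j) (Finset.mem_univ i)).trans hp.2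
  have hconv : Convex ℝ P := by
    intro p hp q hq a b ha hb hab
    refine ⟨fun i => ?_, ?_⟩
    · have h1 := mul_nonneg ha (hp.1 i)
      have h2 := mul_nonneg hb (hq.1 i)
      simp only [Pi.add_apply, Pi.smul_apply, smul_eq_mul]
      linarith
    · simp only [Pi.add_apply, Pi.smul_apply, smul_eq_mul]
      rw [Finset.sum_add_distrib, ← Finset.mul_sum, ← Finset.mul_sum]
      have h1 := mul_le_mul_of_nonneg_left hp.2 ha
      have h2 := mul_le_mul_of_nonneg_left hq.2 hb
      have h3 : a * ((X.dim : ℝ) + 1) + b * ((X.dim : ℝ) + 1) = (X.dim : ℝ) + 1 := by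
        rw [← add_mul, hab, one_mul]
      linarith
  have hcl : IsClosed P := by
    have : P = (⋂ i, {s : Fin X.dim → ℝ | 0 ≤ s i}) ∩ {s | ∑ i, s i ≤ (X.dim : ℝ) + 1} := by
      ext s
      simp [hP]
    rw [this]
    refine (isClosed_iInter fun i => ?_).inter ?_
    · exact isClosed_le continuous_const (continuous_apply i)
    · exact isClosed_le (by fun_prop) continuous_const
  have hvol : (X.dim.factorial : ℝ≥0∞) * volume P = ((X.dim + 1 : ℕ) : ℝ≥0∞) ^ X.dim := by
    rw [hP, vol_cl (Fin X.dim) ((X.dim : ℝ) + 1) (by positivity), Fintype.card_fin]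
    have h1 : ((X.dim.factorial : ℕ) : ℝ≥0∞) = ENNReal.ofReal (X.dim.factorial : ℝ) :=
      (ENNReal.ofReal_natCast _).symm
    rw [h1, ← ENNReal.ofReal_mul (by positivity)]
    have h2 : (X.dim.factorial : ℝ) * (((X.dim : ℝ) + 1) ^ X.dim / X.dim.factorial) = ((X.dim + 1 : ℕ) : ℝ) ^ X.dim := by
      have : (X.dim.factorial : ℝ) ≠ 0 := by positivity
      push_cast
      field_simp
    rw [h2, ENNReal.ofReal_pow (by positivity), ENNReal.ofReal_natCast]
  have hlim := ENNReal.Tendsto.const_mul (a := (Nat.factorial X.dim : ℝ≥0∞))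
    (lattice_count X.dim P hbdd hconv hcl) (Or.inr (ENNReal.natCast_ne_top _))
  rw [hvol] at hlim
  rw [← hlim.limsup_eq]
  unfold Variety.vol
  refine Filter.limsup_le_limsup ?_
  filter_upwards [Filter.eventually_ge_atTop 1] with m hm
  rw [← mul_div_assoc]
  refine ENNReal.div_le_div_right ?_ _
  have hcount : {u : Fin X.dim → ℤ | (fun i => (u i : ℝ) / (m : ℝ)) ∈ P}.ncard ≤
      Module.finrank ℂ (X.antican m) := by
    rw [simplex_count X.dim m hm, Set.ncard_image_of_injective]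
    · have := hfin m hm
      rw [← finrank_span_image (fun u : Fin X.dim →₀ ℕ => mon y u * (X.jac y)⁻¹ ^ m)
        (mon_li y hy _ (pow_ne_zero _ (inv_ne_zero hJ)))]
      apply Submodule.finrank_mono
      rw [Submodule.span_le]
      rintro _ ⟨u, hu, rfl⟩
      exact proj_section X y hy hpt m u hu
    · intro a b hab
      ext i
      have h5 : ((a i : ℕ) : ℤ) = ((b i : ℕ) : ℤ) := congrFun hab i
      exact_mod_cast h5
  have h2 : X.dim.factorial * {u : Fin X.dim → ℤ | (fun i => (u i : ℝ) / (m : ℝ)) ∈ P}.ncard ≤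
      X.dim.factorial * Module.finrank ℂ (X.antican m) := Nat.mul_le_mul_left _ hcount
  exact_mod_cast h2

end Pool.Agent.R891.TG
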